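import Pool.Agent.Helper91K1.IM.Struct
import Pool.Agent.Y139.SM.Rigid2

/-! The moments of the normalised traces of `H^i(X)`. -/

set_option autoImplicit false

namespace Pool.Agent.Helper91K1.IM

open Complex Filter Topology ComplexConjugate NumberField IsDedekindDomain Asymptotics
  Pool.Agent.W401.Cheb Pool.Agent.W540.BE Pool.Agent.W353.L1 Polynomial
open Pool.Agent.H341R2 (lam lam_tendsto)
open Pool.Agent.W353.PV (tF Eig alp pick_spec)
open Pool.Agent.W353.EF (LFun IsFrobenius)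
open Pool.Agent.W353.EH (edgePoint size HasOrder)
open Pool.Agent.W353.AT (IsArtin IsFrobeniusElement exists_common)
open Pool.Agent.Y139.SM (IsPowerSystem power_size size_of_order RR_zero EP_cofinite)

section
variable {K : Type} [Field K] [NumberField K] {l d i N : ℕ}
  {X : Set (MvPolynomial (Fin l) (𝓞 K))}

theorem t_eq_tF (hi : i ≤ 2 * d) {t : HeightOneSpectrum (𝓞 K) → ℝ}
    (ht : ∀ᶠ v in cofinite, ∃ α : Fin N → ℂ, IsFrobenius X d i v α ∧
      ∑ j, α j = ((t v * (Ideal.absNorm v.asIdeal : ℝ) ^ ((i : ℝ) / 2) : ℝ) : ℂ)) :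
    ∀ᶠ v in cofinite, tF X d i N K v = t v := by
  refine ht.mono fun v hv => ?_
  obtain ⟨α, hα, hs⟩ := hv
  have h1 : Eig X d i v α := hα
  have h3 : Eig X d i v (alp X d i N K v) := pick_spec ⟨_, h1⟩
  have h4 := h1.unique' hi h3
  have h5 : ∑ j, alp X d i N K v j = ∑ j, α j := (congrArg Multiset.sum h4).symm
  have h6 := tr_eq (w := (i : ℝ) / 2) (α := alp X d i N K) (fun j => h3.norm j) (h3.im hi)
  rw [h5, hs] at h6
  have hq0 : (0 : ℝ) < (nm K v : ℝ) := by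
    have := Pool.Agent.W353.L1.nm_pos v
    exact_mod_cast this
  have hqC : ((nm K v : ℕ) : ℂ) ≠ 0 := by
    have := hq0.ne'
    exact_mod_cast this
  have e : (((t v * (Ideal.absNorm v.asIdeal : ℝ) ^ ((i : ℝ) / 2) : ℝ)) : ℂ) *
      ((nm K v : ℕ) : ℂ) ^ (-((((i : ℝ) / 2 : ℝ)) : ℂ)) = ((t v : ℝ) : ℂ) := by
    change ((((t v * (nm K v : ℝ) ^ ((i : ℝ) / 2) : ℝ)) : ℂ)) *
      ((nm K v : ℕ) : ℂ) ^ (-((((i : ℝ) / 2 : ℝ)) : ℂ)) = ((t v : ℝ) : ℂ)
    rw [Complex.ofReal_mul, Complex.ofReal_cpow hq0.le, mul_assoc]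
    have e1 : (((nm K v : ℝ)) : ℂ) = ((nm K v : ℕ) : ℂ) := by push_cast; rfl
    rw [e1, ← Complex.cpow_add _ _ hqC, add_neg_cancel, Complex.cpow_zero, mul_one]
  rw [e] at h6
  have h7 : tF X d i N K v = tr ((i : ℝ) / 2) (alp X d i N K) v := rfl
  rw [h7]
  exact_mod_cast h6

/-- the moment of order `r` -/
theorem has_moment (hi : i ≤ 2 * d) {t : HeightOneSpectrum (𝓞 K) → ℝ} (habs : ∀ v, |t v| ≤ N)
    (ht : ∀ᶠ v in cofinite, ∃ α : Fin N → ℂ, IsFrobenius X d i v α ∧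
      ∑ j, α j = ((t v * (Ideal.absNorm v.asIdeal : ℝ) ^ ((i : ℝ) / 2) : ℝ) : ℂ))
    {κ : Type} [Fintype κ] {n : κ → ℕ}
    (ψ : ∀ a, Representation ℂ (GK K) (Fin (n a) → ℂ)) (hψ : ∀ a, IsArtin (ψ a)) (c : κ → ℤ)
    {w : GK K → ℝ} (hw : ∀ g, (w g : ℂ) = ∑ a, (c a : ℂ) * (ψ a).character g)
    {W : ℝ} (hw0 : ∀ g, 0 ≤ w g) (hwW : ∀ g, w g ≤ W)
    {σ : HeightOneSpectrum (𝓞 K) → GK K} (hσ : ∀ v, IsFrob v (σ v)) (r : ℕ)
    (B : κ → HeightOneSpectrum (𝓞 K) → ℂ[X]) (k : κ → ℤ)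
    (hB : ∀ a, IsPowerSystem X d i N r (ψ a) (B a)) (hk : ∀ a, HasOrder (r * i) 0 (B a) (k a)) :
    Has (fun v => t v ^ r * w (σ v)⁻¹) ((-∑ a, c a * k a : ℤ) : ℝ) := by
  classical
  have h1 : ∀ a, Has (fun v => (tF X d i N K v) ^ r * RR (ψ a) 0 σ v) (-(k a : ℝ)) := by
    intro a
    obtain ⟨U, hUn, hU, hx1⟩ := exists_common (κ := Unit) (n := fun _ => n a)
      (fun _ => ψ a) fun _ => hψ a
    have hx1 : ∀ u ∈ U, ψ a u = 1 := hx1 ()
    have hfin : Finite (GK K ⧸ U) := Subgroup.quotient_finite_of_isOpen U hU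
    obtain ⟨g1, g2⟩ := power_size hi hσ r (ψ a) (hψ a) (B a) (hB a)
    have g3 := size_of_order g1 (hk a)
    refine ⟨⟨(N : ℝ) ^ r * n a, fun v => ?_⟩, ?_⟩
    · rw [abs_mul, abs_pow]
      exact mul_le_mul (pow_le_pow_left₀ (abs_nonneg _) (abs_tr_le _ _ _) r)
        (abs_RR_le U (ψ a) hx1 _ _ _) (abs_nonneg _) (by positivity)
    · have := g2.add g3
      rw [zero_add] at this
      exact this.congr fun ε => by ring
  have h2 := has_sum Finset.univ (fun a v => (c a : ℝ) * ((tF X d i N K v) ^ r * RR (ψ a) 0 σ v))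
    (fun a => (c a : ℝ) * (-(k a : ℝ))) fun a _ => (h1 a).const_mul (c a)
  have h3 : Has (fun v => (tF X d i N K v) ^ r * w (σ v)⁻¹) ((-∑ a, c a * k a : ℤ) : ℝ) := by
    refine h2.congr (fun v => ?_) ?_
    · have e : w (σ v)⁻¹ = ∑ a, (c a : ℝ) * RR (ψ a) 0 σ v := by
        have h4 := congrArg Complex.re (hw (σ v)⁻¹)
        rw [Complex.ofReal_re, Complex.re_sum] at h4
        rw [h4]
        refine Finset.sum_congr rfl fun a _ => ?_
        rw [RR_zero, Complex.mul_re]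
        simp
      rw [e, Finset.mul_sum]
      exact Finset.sum_congr rfl fun a _ => by ring
    · push_cast
      rw [← Finset.sum_neg_distrib]
      exact Finset.sum_congr rfl fun a _ => by ring
  have hwb : ∀ v, |w (σ v)⁻¹| ≤ W := fun v => by
    rw [abs_of_nonneg (hw0 _)]
    exact hwW _
  have hW : 0 ≤ W := (hw0 1).trans (hwW 1)
  have hb : ∀ v, |t v ^ r * w (σ v)⁻¹| ≤ (N : ℝ) ^ r * W := fun v => by
    rw [abs_mul, abs_pow]
    exact mul_le_mul (pow_le_pow_left₀ (abs_nonneg _) (habs v) r) (hwb v) (abs_nonneg _)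
      (by positivity)
  have hb' : ∀ v, |(tF X d i N K v) ^ r * w (σ v)⁻¹| ≤ (N : ℝ) ^ r * W := fun v => by
    rw [abs_mul, abs_pow]
    exact mul_le_mul (pow_le_pow_left₀ (abs_nonneg _) (abs_tr_le _ _ _) r) (hwb v) (abs_nonneg _)
      (by positivity)
  refine ⟨⟨_, hb⟩, ?_⟩
  have h5 := EP_cofinite hb hb' ((t_eq_tF hi ht).mono fun v hv => by rw [hv])
  have h6 := h5.add h3.2
  rw [zero_add] at h6
  exact h6.congr fun ε => by ring

end

end Pool.Agent.Helper91K1.IM
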