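import Mathlib

/-! Positive functionals with integer moments that kill the square of a monic integer polynomial. -/

set_option autoImplicit false

namespace Pool.Agent.Helper91K1.IM

open Polynomial

/-- the functional with the moments `m` -/
noncomputable def Mf (m : ℕ → ℤ) : ℝ[X] →ₗ[ℝ] ℝ :=
  Polynomial.lsum fun j => (m j : ℝ) • LinearMap.id

theorem Mf_apply (m : ℕ → ℤ) (f : ℝ[X]) : Mf m f = f.sum fun j a => m j * a := by
  simp [Mf, Polynomial.lsum]

theorem Mf_range (m : ℕ → ℤ) (f : ℝ[X]) {n : ℕ} (hf : f.natDegree ≤ n) :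
    Mf m f = ∑ j ∈ Finset.range (n + 1), f.coeff j * m j := by
  rw [Mf_apply, sum_over_range' f _ (n + 1) (Nat.lt_succ_of_le hf)]
  · exact Finset.sum_congr rfl fun j _ => mul_comm _ _
  · intro j
    rw [mul_zero]

theorem Mf_X (m : ℕ → ℤ) (k : ℕ) : Mf m (X ^ k) = m k := by
  rw [Mf_range m (X ^ k) (natDegree_X_pow_le k), Finset.sum_eq_single k]
  · rw [coeff_X_pow, if_pos rfl, one_mul]
  · intro j _ hj
    rw [coeff_X_pow, if_neg hj, zero_mul]
  · intro hk
    exact absurd (Finset.mem_range.2 (Nat.lt_succ_self k)) hk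

section
variable {m : ℕ → ℤ} {N : ℝ}

/-- positivity on `[-N, N]` -/
def Pos (m : ℕ → ℤ) (N : ℝ) : Prop :=
  ∀ f : ℝ[X], (∀ x, |x| ≤ N → 0 ≤ f.eval x) → 0 ≤ Mf m f

theorem Pos.sq (h : Pos m N) (f : ℝ[X]) : 0 ≤ Mf m (f ^ 2) :=
  h _ fun x _ => by rw [eval_pow]; exact sq_nonneg _

theorem Pos.cs (h : Pos m N) {f : ℝ[X]} (hf : Mf m (f ^ 2) = 0) (g : ℝ[X]) : Mf m (f * g) = 0 := by
  by_contra hne
  set c := Mf m (f * g) with hc
  set G := Mf m (g ^ 2) with hG
  have hG0 : 0 ≤ G := h.sq g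
  set t := -c / (G + 1) with ht
  have h1 := h.sq (f + C t * g)
  have e : (f + C t * g) ^ 2 = f ^ 2 + (2 * t) • (f * g) + (t ^ 2) • g ^ 2 := by
    rw [smul_eq_C_mul, smul_eq_C_mul, C_mul, C_pow]
    have : (C (2 : ℝ) : ℝ[X]) = 2 := rfl
    rw [this]
    ring
  rw [e, map_add, map_add, map_smul, map_smul, hf, smul_eq_mul, smul_eq_mul, ← hc, ← hG,
    zero_add] at h1
  have hG1 : 0 < G + 1 := by linarith
  have e2 : 2 * t * c + t ^ 2 * G = -(c ^ 2 * (G + 2)) / (G + 1) ^ 2 := by
    rw [ht]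
    field_simp
    ring
  rw [e2] at h1
  have h2 : 0 < c ^ 2 * (G + 2) := by positivity
  have h3 : -(c ^ 2 * (G + 2)) / (G + 1) ^ 2 < 0 := div_neg_of_neg_of_pos (by linarith) (by positivity)
  linarith

theorem eval_prod_X_sub (A : Finset ℝ) (x : ℝ) :
    (∏ y ∈ A, (X - C y)).eval x = ∏ y ∈ A, (x - y) := by
  rw [eval_prod]
  simp

theorem prod_dvd_of_vanish (A : Finset ℝ) {f : ℝ[X]} (hf : ∀ x ∈ A, f.eval x = 0) :
    ∏ y ∈ A, (X - C y) ∣ f := by
  refine Finset.prod_dvd_of_coprime ?_ fun y hy => dvd_iff_isRoot.2 (hf y hy)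
  intro a _ b _ hab
  exact pairwise_coprime_X_sub_C (fun a b h => h) hab

/-- smallness near the zeros -/
theorem compact_bound (P r : ℝ[X]) (N : ℝ) (h : ∀ x, |x| ≤ N → P.eval x = 0 → r.eval x = 0)
    {δ : ℝ} (hδ : 0 < δ) : ∃ K : ℝ, 0 ≤ K ∧ ∀ x, |x| ≤ N →
      r.eval x ^ 2 ≤ δ + K * P.eval x ^ 2 := by
  set Z : Set ℝ := {x | |x| ≤ N ∧ δ ≤ r.eval x ^ 2} with hZ
  have hZc : IsCompact Z := by
    refine (isCompact_Icc (a := -N) (b := N)).of_isClosed_subset ?_ fun x hx => abs_le.1 hx.1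
    exact (isClosed_le continuous_abs continuous_const).inter
      (isClosed_le continuous_const (r.continuous.pow 2))
  obtain ⟨A, hA⟩ := (isCompact_Icc (a := -N) (b := N)).exists_bound_of_continuousOn
    (f := fun x => r.eval x ^ 2) (r.continuous.pow 2).continuousOn
  rcases Z.eq_empty_or_nonempty with h0 | h0
  · refine ⟨0, le_rfl, fun x hx => ?_⟩
    rw [zero_mul, add_zero]
    by_contra hc
    push Not at hc
    have : x ∈ Z := ⟨hx, hc.le⟩
    rw [h0] at this
    exact this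
  · obtain ⟨x₀, hx₀, hmin⟩ := hZc.exists_isMinOn h0 (f := fun x => P.eval x ^ 2)
      (P.continuous.pow 2).continuousOn
    have hμ : 0 < P.eval x₀ ^ 2 := by
      have : P.eval x₀ ≠ 0 := by
        intro hc
        have h1 := h x₀ hx₀.1 hc
        have h2 := hx₀.2
        rw [h1] at h2
        norm_num at h2
        linarith
      positivity
    have hA0 : 0 ≤ A := (norm_nonneg _).trans (hA x₀ (abs_le.1 hx₀.1))
    refine ⟨A / P.eval x₀ ^ 2, by positivity, fun x hx => ?_⟩
    by_cases hxZ : δ ≤ r.eval x ^ 2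
    · have h1 : P.eval x₀ ^ 2 ≤ P.eval x ^ 2 := hmin (show x ∈ Z from ⟨hx, hxZ⟩)
      have h2 : r.eval x ^ 2 ≤ A := (le_abs_self _).trans (hA x (abs_le.1 hx))
      have h3 : A ≤ A / P.eval x₀ ^ 2 * P.eval x ^ 2 := by
        rw [div_mul_eq_mul_div, le_div_iff₀ hμ]
        exact mul_le_mul_of_nonneg_left h1 hA0
      linarith
    · push Not at hxZ
      have : 0 ≤ A / P.eval x₀ ^ 2 * P.eval x ^ 2 := by positivity
      linarith

/-- **The atoms.** -/
theorem atoms (h : Pos m N) {P : ℤ[X]} (hP : P.Monic)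
    (h0 : Mf m ((P.map (Int.castRingHom ℝ)) ^ 2) = 0) :
    ∃ (p : ℤ[X]) (A : Finset ℝ) (c : ℝ → ℝ), p.Monic ∧
      p.map (Int.castRingHom ℝ) = ∏ x ∈ A, (X - C x) ∧ (∀ x ∈ A, |x| ≤ N) ∧
      (∀ x ∈ A, 0 < c x) ∧ ∀ f : ℝ[X], Mf m f = ∑ x ∈ A, c x * f.eval x := by
  classical
  set P' := P.map (Int.castRingHom ℝ) with hP'
  have hP'm : P'.Monic := hP.map _
  set A₀ := P'.roots.toFinset.filter (fun x => |x| ≤ N) with hA₀
  -- the first product
  have hr0 : Mf m ((∏ y ∈ A₀, (X - C y)) ^ 2) = 0 := by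
    set r := ∏ y ∈ A₀, (X - C y) with hr
    refine le_antisymm ?_ (h.sq r)
    refine le_of_forall_pos_le_add fun η hη => ?_
    rw [zero_add]
    have h1 : 0 ≤ Mf m 1 := h 1 fun x _ => by simp
    set δ := η / (Mf m 1 + 1) with hδ
    have hδ0 : 0 < δ := by positivity
    obtain ⟨K, hK0, hK⟩ := compact_bound P' r N (by
      intro x hx hx0
      rw [hr, eval_prod_X_sub]
      refine Finset.prod_eq_zero (i := x) ?_ (sub_self x)
      rw [hA₀, Finset.mem_filter, Multiset.mem_toFinset, mem_roots hP'm.ne_zero]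
      exact ⟨hx0, hx⟩) hδ0
    have h2 := h (δ • 1 + K • P' ^ 2 - r ^ 2) fun x hx => by
      have := hK x hx
      simp only [eval_sub, eval_add, eval_smul, eval_one, eval_pow, smul_eq_mul, mul_one]
      linarith
    rw [map_sub, map_add, map_smul, map_smul, h0, smul_zero, add_zero, smul_eq_mul] at h2
    have h3 : δ * Mf m 1 ≤ η := by
      rw [hδ, div_mul_eq_mul_div, div_le_iff₀ (by positivity)]
      nlinarith
    linarith
  -- a minimal subset
  obtain ⟨A, hA, hmin⟩ := Finset.exists_min_image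
    (A₀.powerset.filter fun A => Mf m ((∏ y ∈ A, (X - C y)) ^ 2) = 0) Finset.card
    ⟨A₀, Finset.mem_filter.2 ⟨Finset.mem_powerset.2 subset_rfl, hr0⟩⟩
  rw [Finset.mem_filter, Finset.mem_powerset] at hA
  obtain ⟨hAsub, hAr⟩ := hA
  set r := ∏ y ∈ A, (X - C y) with hr
  have hrm : r.Monic := monic_prod_of_monic _ _ fun y _ => monic_X_sub_C y
  have hrd : r.natDegree = A.card := by
    rw [hr, natDegree_prod_of_monic _ _ fun y _ => monic_X_sub_C y]
    simp
  have hker : ∀ f : ℝ[X], (∀ x ∈ A, f.eval x = 0) → Mf m f = 0 := by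
    intro f hf
    obtain ⟨g, hg⟩ := prod_dvd_of_vanish A hf
    rw [hg]
    exact h.cs hAr g
  set rr : ℝ → ℝ[X] := fun x => ∏ y ∈ A.erase x, (X - C y) with hrr
  have hrr0 : ∀ x ∈ A, (rr x).eval x ≠ 0 := by
    intro x hx
    rw [hrr]
    dsimp only
    rw [eval_prod_X_sub, Finset.prod_ne_zero_iff]
    intro y hy
    exact sub_ne_zero.2 (Finset.ne_of_mem_erase hy).symm
  have hrrv : ∀ x ∈ A, ∀ y ∈ A, y ≠ x → (rr x).eval y = 0 := by
    intro x _ y hy hyx
    rw [hrr]
    dsimp only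
    rw [eval_prod_X_sub]
    exact Finset.prod_eq_zero (Finset.mem_erase.2 ⟨hyx, hy⟩) (sub_self y)
  have hrrp : ∀ x ∈ A, 0 < Mf m ((rr x) ^ 2) := by
    intro x hx
    refine lt_of_le_of_ne (h.sq _) fun hc => ?_
    have h1 := hmin (A.erase x) (by
      rw [Finset.mem_filter, Finset.mem_powerset]
      exact ⟨(Finset.erase_subset _ _).trans hAsub, hc.symm⟩)
    rw [Finset.card_erase_of_mem hx] at h1
    have := Finset.card_pos.2 ⟨x, hx⟩
    omega
  set c : ℝ → ℝ := fun x => Mf m ((rr x) ^ 2) / (rr x).eval x ^ 2 with hc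
  have hcpos : ∀ x ∈ A, 0 < c x := fun x hx => by
    have := hrr0 x hx
    have := hrrp x hx
    rw [hc]
    positivity
  have hrep : ∀ f : ℝ[X], Mf m f = ∑ x ∈ A, c x * f.eval x := by
    intro f
    have h1 := hker (f - ∑ x ∈ A, (f.eval x / (rr x).eval x ^ 2) • (rr x) ^ 2) (by
      intro y hy
      rw [eval_sub, eval_finsetSum, Finset.sum_eq_single y]
      · rw [eval_smul, eval_pow, smul_eq_mul, div_mul_cancel₀, sub_self]
        exact pow_ne_zero 2 (hrr0 y hy)
      · intro x hx hxy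
        rw [eval_smul, eval_pow, hrrv x hx y hy hxy.symm]
        simp
      · exact fun h => absurd hy h)
    rw [map_sub, map_sum, sub_eq_zero] at h1
    rw [h1]
    refine Finset.sum_congr rfl fun x _ => ?_
    rw [map_smul, smul_eq_mul, hc]
    dsimp only
    ring
  -- rationality
  have huniq : ∀ g : ℝ[X], g.Monic → g.natDegree = A.card → (∀ f, Mf m (g * f) = 0) → g = r := by
    intro g hgm hgd hg
    have h1 : ∀ x ∈ A, g.eval x = 0 := by
      have h2 := hg g
      rw [← pow_two, hrep] at h2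
      intro x hx
      have h3 := (Finset.sum_eq_zero_iff_of_nonneg (fun x hx => mul_nonneg (hcpos x hx).le (by
        rw [eval_pow]; exact sq_nonneg _))).1 h2 x hx
      rcases mul_eq_zero.1 h3 with h4 | h4
      · exact absurd h4 (hcpos x hx).ne'
      · rw [eval_pow] at h4
        exact pow_eq_zero_iff (two_ne_zero) |>.1 h4
    obtain ⟨k, hk⟩ := prod_dvd_of_vanish A h1
    rw [← hr] at hk
    have hkm : k.Monic := by
      rw [hk] at hgm
      exact hrm.of_mul_monic_left hgm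
    have hkd : k.natDegree = 0 := by
      rw [hk, hrm.natDegree_mul hkm, hrd] at hgd
      omega
    rw [hk, eq_one_of_monic_natDegree_zero hkm hkd, mul_one]
  obtain ⟨φ, hφ⟩ := LinearMap.exists_leftInverse_of_injective (Algebra.linearMap ℚ ℝ)
    (LinearMap.ker_eq_bot.2 (algebraMap ℚ ℝ).injective)
  have hφ1 : ∀ q : ℚ, φ (q : ℝ) = q := fun q => LinearMap.congr_fun hφ q
  set gQ : ℚ[X] := ∑ j ∈ Finset.range (A.card + 1), C (φ (r.coeff j)) * X ^ j with hgQ
  have hgQc : ∀ j, gQ.coeff j = if j < A.card + 1 then φ (r.coeff j) else 0 := by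
    intro j
    rw [hgQ, finsetSum_coeff]
    simp only [coeff_C_mul_X_pow]
    rw [Finset.sum_ite_eq]
    simp
  have hgQd : gQ.natDegree ≤ A.card := by
    rw [natDegree_le_iff_coeff_eq_zero]
    intro j hj
    rw [hgQc, if_neg (by omega)]
  have hgQl : gQ.coeff A.card = 1 := by
    rw [hgQc, if_pos (by omega)]
    have h1 : r.coeff A.card = 1 := by
      rw [← hrd]
      exact hrm.coeff_natDegree
    rw [h1]
    have := hφ1 1
    rwa [Rat.cast_one] at this
  have hgQm : gQ.Monic := monic_of_natDegree_le_of_coeff_eq_one A.card hgQd hgQl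
  have hgQd' : gQ.natDegree = A.card := by
    refine le_antisymm hgQd (le_natDegree_of_ne_zero ?_)
    rw [hgQl]
    exact one_ne_zero
  have hQr : gQ.map (algebraMap ℚ ℝ) = r := by
    refine huniq _ (hgQm.map _) (by rw [hgQm.natDegree_map, hgQd']) ?_
    have hX : ∀ k : ℕ, Mf m (gQ.map (algebraMap ℚ ℝ) * X ^ k) = 0 := by
      intro k
      have e1 : ∀ g : ℝ[X], g.natDegree ≤ A.card → Mf m (g * X ^ k) =
          ∑ j ∈ Finset.range (A.card + 1), g.coeff j * m (j + k) := by
        intro g hg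
        have e2 : g * X ^ k = ∑ j ∈ Finset.range (A.card + 1), g.coeff j • X ^ (j + k) := by
          conv_lhs => rw [g.as_sum_range' (A.card + 1) (Nat.lt_succ_of_le hg)]
          rw [Finset.sum_mul]
          refine Finset.sum_congr rfl fun j _ => ?_
          rw [← C_mul_X_pow_eq_monomial, smul_eq_C_mul, pow_add]
          ring
        rw [e2, map_sum]
        refine Finset.sum_congr rfl fun j _ => ?_
        rw [map_smul, Mf_X, smul_eq_mul]
      have h2 : Mf m (r * X ^ k) = 0 := h.cs hAr _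
      rw [e1 r hrd.le] at h2
      rw [e1 _ (by rw [hgQm.natDegree_map, hgQd'])]
      have h3 : φ (∑ j ∈ Finset.range (A.card + 1), r.coeff j * (m (j + k) : ℝ)) = 0 := by
        rw [h2, map_zero]
      rw [map_sum] at h3
      have h4 : ∀ j, φ (r.coeff j * (m (j + k) : ℝ)) = φ (r.coeff j) * (m (j + k) : ℚ) := by
        intro j
        have : r.coeff j * (m (j + k) : ℝ) = ((m (j + k) : ℤ) : ℚ) • r.coeff j := by
          rw [Rat.smul_def]
          push_cast
          ring
        rw [this, map_smul, smul_eq_mul]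
        ring
      simp only [h4] at h3
      have h5 : ((∑ j ∈ Finset.range (A.card + 1), φ (r.coeff j) * (m (j + k) : ℚ) : ℚ) : ℝ) = 0 := by
        rw [h3, Rat.cast_zero]
      rw [← h5]
      push_cast
      refine Finset.sum_congr rfl fun j hj => ?_
      rw [coeff_map, hgQc, if_pos (Finset.mem_range.1 hj)]
      rfl
    intro f
    induction f using Polynomial.induction_on' with
    | add p q hp hq => rw [mul_add, map_add, hp, hq, add_zero]
    | monomial n a =>
      have : gQ.map (algebraMap ℚ ℝ) * monomial n a = a • (gQ.map (algebraMap ℚ ℝ) * X ^ n) := by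
        rw [← C_mul_X_pow_eq_monomial, smul_eq_C_mul]
        ring
      rw [this, map_smul, hX, smul_zero]
  -- integrality
  have hdvd : r ∣ P' := prod_dvd_of_vanish A fun x hx => by
    have h1 := hAsub hx
    rw [hA₀, Finset.mem_filter, Multiset.mem_toFinset, mem_roots hP'm.ne_zero] at h1
    exact h1.1
  have hdvd' : gQ ∣ P.map (algebraMap ℤ ℚ) := by
    have e : (P.map (algebraMap ℤ ℚ)).map (algebraMap ℚ ℝ) = P' := by
      rw [Polynomial.map_map]
      rfl
    rw [← hQr, ← e] at hdvd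
    exact (map_dvd_map' (algebraMap ℚ ℝ)).1 hdvd
  obtain ⟨p, hp⟩ := IsIntegrallyClosed.eq_map_mul_C_of_dvd ℚ hP hdvd'
  rw [hgQm.leadingCoeff, C_1, mul_one] at hp
  have hpm : p.Monic := by
    have : (p.map (algebraMap ℤ ℚ)).Monic := by
      rw [hp]
      exact hgQm
    exact monic_of_injective (algebraMap ℤ ℚ).injective_int this
  refine ⟨p, A, c, hpm, ?_, ?_, hcpos, hrep⟩
  · rw [← hr, ← hQr, ← hp, Polynomial.map_map]
    rfl
  · intro x hx
    have h1 := hAsub hx
    rw [hA₀, Finset.mem_filter] at h1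
    exact h1.2

end

end Pool.Agent.Helper91K1.IM
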