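import Mathlib

/-! Monic integer polynomials that are small on sets of small capacity (Fekete). -/

set_option autoImplicit false

namespace Pool.Agent.Helper91K1.IM

open Polynomial

section
variable {q : ℝ[X]}

/-- the basis polynomial of degree `k` -/
noncomputable def bas (q : ℝ[X]) (k : ℕ) : ℝ[X] := X ^ (k % q.natDegree) * q ^ (k / q.natDegree)

theorem bas_monic (hq : q.Monic) (k : ℕ) : (bas q k).Monic :=
  (monic_X_pow _).mul (hq.pow _)

theorem bas_natDegree (hq : q.Monic) (k : ℕ) : (bas q k).natDegree = k := by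
  unfold bas
  rw [(monic_X_pow _).natDegree_mul (hq.pow _), natDegree_X_pow, hq.natDegree_pow]
  rw [mul_comm]
  exact Nat.mod_add_div k q.natDegree

theorem bas_abs_le {N ρ x : ℝ} (hN : 1 ≤ N) (hd : 0 < q.natDegree) (hx : |x| ≤ N)
    (hρ : |q.eval x| ≤ ρ) (k : ℕ) :
    |(bas q k).eval x| ≤ N ^ q.natDegree * ρ ^ (k / q.natDegree) := by
  unfold bas
  rw [eval_mul, eval_pow, eval_pow, eval_X, abs_mul, abs_pow, abs_pow]
  have h1 : |x| ^ (k % q.natDegree) ≤ N ^ q.natDegree :=
    (pow_le_pow_left₀ (abs_nonneg _) hx _).trans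
      (pow_le_pow_right₀ hN (Nat.mod_lt _ hd).le)
  have h2 : |q.eval x| ^ (k / q.natDegree) ≤ ρ ^ (k / q.natDegree) :=
    pow_le_pow_left₀ (abs_nonneg _) hρ _
  exact mul_le_mul h1 h2 (by positivity) (by positivity)

/-- rounding the coefficients of degree at least `k₀` -/
theorem rounding (hq : q.Monic) (S : Set ℝ) (a : ℕ → ℝ)
    (ha : ∀ k, ∀ x ∈ S, |(bas q k).eval x| ≤ a k) (k₀ : ℕ) :
    ∀ (n : ℕ) (P : ℝ[X]), P.degree < ((k₀ + n : ℕ) : WithBot ℕ) →
      ∃ (I : ℤ[X]) (L G : ℝ[X]), P = I.map (Int.castRingHom ℝ) + L + G ∧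
        I.degree < ((k₀ + n : ℕ) : WithBot ℕ) ∧ L.degree < (k₀ : WithBot ℕ) ∧
        (∀ j, 0 ≤ L.coeff j ∧ L.coeff j < 1) ∧
        ∀ x ∈ S, |G.eval x| ≤ ∑ k ∈ Finset.Ico k₀ (k₀ + n), a k := by
  intro n
  induction n with
  | zero =>
    intro P hP
    rw [add_zero] at hP
    refine ⟨∑ j ∈ Finset.range k₀, C ⌊P.coeff j⌋ * X ^ j,
      ∑ j ∈ Finset.range k₀, C (Int.fract (P.coeff j)) * X ^ j, 0, ?_, ?_, ?_, ?_, ?_⟩
    · rw [add_zero, Polynomial.map_sum, ← Finset.sum_add_distrib]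
      rcases eq_or_ne P 0 with h0 | h0
      · subst h0
        simp
      · have hP' : P.natDegree < k₀ := (natDegree_lt_iff_degree_lt h0).2 hP
        conv_lhs => rw [P.as_sum_range' k₀ hP']
        refine Finset.sum_congr rfl fun j _ => ?_
        rw [Polynomial.map_mul, Polynomial.map_pow, map_X, map_C, ← add_mul, ← C_add,
          ← C_mul_X_pow_eq_monomial]
        congr 2
        simp
    · rw [add_zero]
      refine (degree_sum_le _ _).trans_lt ?_
      rw [Finset.sup_lt_iff (WithBot.bot_lt_coe _)]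
      intro j hj
      exact (degree_C_mul_X_pow_le _ _).trans_lt (by exact_mod_cast Finset.mem_range.1 hj)
    · refine (degree_sum_le _ _).trans_lt ?_
      rw [Finset.sup_lt_iff (WithBot.bot_lt_coe _)]
      intro j hj
      exact (degree_C_mul_X_pow_le _ _).trans_lt (by exact_mod_cast Finset.mem_range.1 hj)
    · intro j
      have e : (∑ j ∈ Finset.range k₀, C (Int.fract (P.coeff j)) * X ^ j).coeff j =
          if j < k₀ then Int.fract (P.coeff j) else 0 := by
        rw [finsetSum_coeff]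
        simp only [coeff_C_mul_X_pow]
        rw [Finset.sum_ite_eq]
        simp
      rw [e]
      split_ifs
      · exact ⟨Int.fract_nonneg _, Int.fract_lt_one _⟩
      · norm_num
    · intro x _
      simp
  | succ n ih =>
    intro P hP
    set c := P.coeff (k₀ + n) with hc
    have hdeg : (bas q (k₀ + n)).natDegree = k₀ + n := bas_natDegree hq _
    have hlead : (bas q (k₀ + n)).coeff (k₀ + n) = 1 := by
      have := (bas_monic hq (k₀ + n)).coeff_natDegree
      rwa [hdeg] at this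
    set P' : ℝ[X] := P - C (Int.fract c) * bas q (k₀ + n) - C ((⌊c⌋ : ℤ) : ℝ) * X ^ (k₀ + n)
      with hP'
    have hP'd : P'.degree < ((k₀ + n : ℕ) : WithBot ℕ) := by
      rw [degree_lt_iff_coeff_zero]
      intro m hm
      rcases eq_or_lt_of_le hm with h | h
      · rw [← h, hP', coeff_sub, coeff_sub, coeff_C_mul, hlead, coeff_C_mul_X_pow, if_pos rfl,
          ← hc]
        have := Int.floor_add_fract c
        linarith
      · have h1 : P.coeff m = 0 := by
          rw [degree_lt_iff_coeff_zero] at hP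
          exact hP m (by omega)
        have h2 : (bas q (k₀ + n)).coeff m = 0 :=
          coeff_eq_zero_of_natDegree_lt (by rw [hdeg]; omega)
        rw [hP', coeff_sub, coeff_sub, coeff_C_mul, h1, h2, coeff_C_mul_X_pow, if_neg (by omega)]
        ring
    obtain ⟨I, L, G, h1, h2, h3, h4, h5⟩ := ih P' hP'd
    refine ⟨I + C ⌊c⌋ * X ^ (k₀ + n), L, G + C (Int.fract c) * bas q (k₀ + n), ?_, ?_, h3, h4, ?_⟩
    · have e : P = P' + C (Int.fract c) * bas q (k₀ + n) + C ((⌊c⌋ : ℤ) : ℝ) * X ^ (k₀ + n) := by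
        rw [hP']
        ring
      rw [e, h1, Polynomial.map_add, Polynomial.map_mul, Polynomial.map_pow, map_X, map_C]
      simp only [eq_intCast]
      ring
    · refine (degree_add_le _ _).trans_lt (max_lt (h2.trans ?_) ?_)
      · exact_mod_cast (by omega : k₀ + n < k₀ + (n + 1))
      · exact (degree_C_mul_X_pow_le _ _).trans_lt
          (by exact_mod_cast (by omega : k₀ + n < k₀ + (n + 1)))
    · intro x hx
      rw [eval_add, eval_mul, eval_C]
      refine (abs_add_le _ _).trans ?_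
      have e : Finset.Ico k₀ (k₀ + (n + 1)) = insert (k₀ + n) (Finset.Ico k₀ (k₀ + n)) := by
        ext j
        simp only [Finset.mem_Ico, Finset.mem_insert]
        omega
      rw [e, Finset.sum_insert (by simp), add_comm (a (k₀ + n))]
      refine add_le_add (h5 x hx) ?_
      rw [abs_mul, abs_of_nonneg (Int.fract_nonneg _)]
      calc Int.fract c * |(bas q (k₀ + n)).eval x| ≤ 1 * |(bas q (k₀ + n)).eval x| :=
            mul_le_mul_of_nonneg_right (Int.fract_lt_one _).le (abs_nonneg _)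
        _ ≤ a (k₀ + n) := by rw [one_mul]; exact ha _ x hx

theorem geom_tail {r : ℝ} (hr : 0 ≤ r) (hr1 : r < 1) (k₀ n : ℕ) :
    ∑ k ∈ Finset.Ico k₀ (k₀ + n), r ^ k ≤ r ^ k₀ / (1 - r) := by
  have h1 : (0 : ℝ) < 1 - r := by linarith
  rw [le_div_iff₀ h1]
  have e : ∑ k ∈ Finset.Ico k₀ (k₀ + n), r ^ k = r ^ k₀ * ∑ k ∈ Finset.range n, r ^ k := by
    rw [Finset.sum_Ico_eq_sum_range, Finset.mul_sum, Nat.add_sub_cancel_left]
    exact Finset.sum_congr rfl fun k _ => by rw [pow_add]
  have h2 : (∑ k ∈ Finset.range n, r ^ k) * (1 - r) = 1 - r ^ n := by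
    have := geom_sum_mul r n
    linarith
  rw [e, mul_assoc, h2]
  have h3 : 0 ≤ r ^ n := pow_nonneg hr n
  have h4 : 0 ≤ r ^ k₀ := pow_nonneg hr k₀
  nlinarith

/-- **Fekete's theorem.** -/
theorem fekete {q : ℝ[X]} (hq : q.Monic) (hd : 0 < q.natDegree) {N ρ δ : ℝ} (hρ1 : ρ < 1)
    (hδ : 0 < δ) : ∃ F : ℤ[X], F.Monic ∧ 0 < F.natDegree ∧
      ∀ x : ℝ, |x| ≤ N → |q.eval x| ≤ ρ → |(F.map (Int.castRingHom ℝ)).eval x| ≤ δ := by
  classical
  -- normalisations
  set N' : ℝ := max N 1 with hN'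
  have hN1 : 1 ≤ N' := le_max_right _ _
  set ρ' : ℝ := max ρ (1 / 2) with hρ'
  have hρ0 : 0 < ρ' := lt_of_lt_of_le (by norm_num) (le_max_right _ _)
  have hρ1' : ρ' < 1 := max_lt hρ1 (by norm_num)
  set d := q.natDegree with hdd
  set r : ℝ := ρ' ^ ((d : ℝ)⁻¹) with hr
  have hr0 : 0 < r := Real.rpow_pos_of_pos hρ0 _
  have hrd : r ^ d = ρ' := Real.rpow_inv_natCast_pow hρ0.le (by omega)
  have hr1 : r < 1 := Real.rpow_lt_one hρ0.le hρ1' (by positivity)
  set S : Set ℝ := {x | |x| ≤ N' ∧ |q.eval x| ≤ ρ'} with hS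
  set M : ℝ := N' ^ d / ρ' with hM
  have hM0 : 0 < M := by positivity
  have ha : ∀ k, ∀ x ∈ S, |(bas q k).eval x| ≤ M * r ^ k := by
    intro k x hx
    refine (bas_abs_le hN1 hd hx.1 hx.2 k).trans ?_
    rw [← hdd, hM, div_mul_eq_mul_div, le_div_iff₀ hρ0, mul_assoc]
    refine mul_le_mul_of_nonneg_left ?_ (by positivity)
    have h1 : ρ' ^ (k / d) * ρ' = r ^ (d * (k / d) + d) := by
      rw [pow_add, pow_mul, hrd]
    rw [h1]
    refine pow_le_pow_of_le_one hr0.le hr1.le ?_
    have := Nat.div_add_mod k d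
    have := Nat.mod_lt k hd
    omega
  -- the tail
  obtain ⟨k₀, hk₀⟩ : ∃ k₀ : ℕ, M * (r ^ k₀ / (1 - r)) + M * r ^ k₀ < δ / 4 := by
    have h1 : Filter.Tendsto (fun k : ℕ => M * (r ^ k / (1 - r)) + M * r ^ k) Filter.atTop
        (nhds (M * (0 / (1 - r)) + M * 0)) :=
      (((tendsto_pow_atTop_nhds_zero_of_lt_one hr0.le hr1).div_const _).const_mul M).add
        ((tendsto_pow_atTop_nhds_zero_of_lt_one hr0.le hr1).const_mul M)
    have e : M * (0 / (1 - r)) + M * 0 = 0 := by simp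
    rw [e] at h1
    exact (h1.eventually_lt_const (by positivity : (0 : ℝ) < δ / 4)).exists
  have h1r : (0 : ℝ) < 1 - r := by linarith
  -- the approximations
  have happ : ∀ n : ℕ, ∃ (J : ℤ[X]) (L : ℝ[X]), J.Monic ∧ J.natDegree = k₀ + n ∧
      L.degree < (k₀ : WithBot ℕ) ∧ (∀ j, 0 ≤ L.coeff j ∧ L.coeff j < 1) ∧
      ∀ x ∈ S, |(J.map (Int.castRingHom ℝ)).eval x + L.eval x| ≤ δ / 4 := by
    intro n
    have hb := bas_monic hq (k₀ + n)
    have hbd : (bas q (k₀ + n)).natDegree = k₀ + n := bas_natDegree hq _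
    have hdeg : (bas q (k₀ + n) - X ^ (k₀ + n)).degree < ((k₀ + n : ℕ) : WithBot ℕ) := by
      have h := degree_sub_lt_left (p := bas q (k₀ + n)) (q := X ^ (k₀ + n)) (by
        rw [degree_eq_natDegree hb.ne_zero, hbd, degree_X_pow]) hb.ne_zero (by
        rw [hb.leadingCoeff, (monic_X_pow _).leadingCoeff])
      rwa [degree_eq_natDegree hb.ne_zero, hbd] at h
    obtain ⟨I, L, G, h1, h2, h3, h4, h5⟩ := rounding hq S (fun k => M * r ^ k) ha k₀ n _ hdeg
    have hmon : (X ^ (k₀ + n) + I).Monic := monic_X_pow_add (by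
      exact h2)
    refine ⟨X ^ (k₀ + n) + I, L, hmon, ?_, h3, h4, ?_⟩
    · have : (X ^ (k₀ + n) + I).degree = ((k₀ + n : ℕ) : WithBot ℕ) := by
        rw [degree_add_eq_left_of_degree_lt (by rw [degree_X_pow]; exact h2), degree_X_pow]
      exact natDegree_eq_of_degree_eq_some this
    · intro x hx
      have e : ((X ^ (k₀ + n) + I).map (Int.castRingHom ℝ)).eval x + L.eval x =
          (bas q (k₀ + n)).eval x - G.eval x := by
        have e1 : bas q (k₀ + n) = X ^ (k₀ + n) + (I.map (Int.castRingHom ℝ) + L + G) := by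
          rw [← h1]
          ring
        rw [e1]
        simp only [Polynomial.map_add, Polynomial.map_pow, map_X, eval_add, eval_pow, eval_X]
        ring
      rw [e]
      have h6 : |G.eval x| ≤ M * (r ^ k₀ / (1 - r)) := by
        refine (h5 x hx).trans ?_
        rw [← Finset.mul_sum]
        exact mul_le_mul_of_nonneg_left (geom_tail hr0.le hr1 k₀ n) hM0.le
      have h7 : |(bas q (k₀ + n)).eval x| ≤ M * r ^ k₀ := by
        refine (ha _ x hx).trans (mul_le_mul_of_nonneg_left ?_ hM0.le)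
        exact pow_le_pow_of_le_one hr0.le hr1.le (by omega)
      calc |(bas q (k₀ + n)).eval x - G.eval x| ≤ |(bas q (k₀ + n)).eval x| + |G.eval x| :=
            abs_sub _ _
        _ ≤ δ / 4 := by linarith
  choose J L hJm hJd hLd hLc hJL using happ
  -- pigeonhole
  set D : ℝ := k₀ * N' ^ k₀ with hD
  obtain ⟨B, hB⟩ := exists_nat_gt (max 1 (D / (δ / 4)))
  have hB1 : (1 : ℝ) < B := lt_of_le_of_lt (le_max_left _ _) hB
  have hB0 : 0 < B := by
    have : (0 : ℝ) < B := by linarith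
    exact_mod_cast this
  have hBD : D / B ≤ δ / 4 := by
    have h2 : D / (δ / 4) < B := lt_of_le_of_lt (le_max_right _ _) hB
    rw [div_lt_iff₀ (by positivity)] at h2
    rw [div_le_iff₀ (by linarith)]
    linarith
  have hfl : ∀ n (j : Fin k₀), ⌊(B : ℝ) * (L n).coeff j⌋₊ < B := by
    intro n j
    rw [Nat.floor_lt (mul_nonneg (Nat.cast_nonneg _) (hLc n j).1)]
    have := (hLc n j).2
    have hB' : (0 : ℝ) < B := by linarith
    nlinarith
  obtain ⟨n₁, n₂, hne, heq⟩ := Finite.exists_ne_map_eq_of_infinite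
    (fun n : ℕ => fun j : Fin k₀ => (⟨_, hfl n j⟩ : Fin B))
  wlog hlt : n₁ < n₂ generalizing n₁ n₂
  · exact this n₂ n₁ hne.symm heq.symm (by omega)
  have hclose : ∀ j, |(L n₁).coeff j - (L n₂).coeff j| ≤ 1 / B := by
    intro j
    have hB' : (0 : ℝ) < B := by linarith
    by_cases hj : j < k₀
    · have h1 := congrFun heq ⟨j, hj⟩
      simp only [Fin.mk.injEq] at h1
      have h2 := Nat.floor_le (mul_nonneg (Nat.cast_nonneg (α := ℝ) B) (hLc n₁ j).1)
      have h3 := Nat.lt_floor_add_one ((B : ℝ) * (L n₁).coeff j)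
      have h4 := Nat.floor_le (mul_nonneg (Nat.cast_nonneg (α := ℝ) B) (hLc n₂ j).1)
      have h5 := Nat.lt_floor_add_one ((B : ℝ) * (L n₂).coeff j)
      rw [h1] at h2 h3
      rw [le_div_iff₀ hB', ← abs_of_pos hB', ← abs_mul, abs_le]
      constructor <;> nlinarith
    · have h1 : (L n₁).coeff j = 0 :=
        coeff_eq_zero_of_degree_lt ((hLd n₁).trans_le (by exact_mod_cast (by omega : k₀ ≤ j)))
      have h2 : (L n₂).coeff j = 0 :=
        coeff_eq_zero_of_degree_lt ((hLd n₂).trans_le (by exact_mod_cast (by omega : k₀ ≤ j)))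
      rw [h1, h2, sub_zero, abs_zero]
      positivity
  have hJne : J n₂ ≠ 0 := (hJm n₂).ne_zero
  have hdlt : (J n₁).degree < (J n₂).degree := by
    rw [degree_eq_natDegree (hJm n₁).ne_zero, degree_eq_natDegree hJne, hJd, hJd]
    exact_mod_cast (by omega : k₀ + n₁ < k₀ + n₂)
  refine ⟨J n₂ - J n₁, ?_, ?_, ?_⟩
  · exact (hJm n₂).sub_of_left hdlt
  · have : (J n₂ - J n₁).degree = (J n₂).degree := degree_sub_eq_left_of_degree_lt hdlt
    rw [natDegree_eq_of_degree_eq this, hJd]
    omega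
  · intro x hx hxq
    have hxS : x ∈ S := ⟨hx.trans (le_max_left _ _), hxq.trans (le_max_left _ _)⟩
    have h1 := hJL n₁ x hxS
    have h2 := hJL n₂ x hxS
    have h3 : |(L n₁).eval x - (L n₂).eval x| ≤ δ / 4 := by
      have hexp : ∀ n, (L n).eval x = ∑ j ∈ Finset.range k₀, (L n).coeff j * x ^ j := by
        intro n
        rcases eq_or_ne (L n) 0 with h0 | h0
        · rw [h0]
          simp
        · exact eval_eq_sum_range' ((natDegree_lt_iff_degree_lt h0).2 (hLd n)) x
      rw [hexp, hexp, ← Finset.sum_sub_distrib]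
      refine (Finset.abs_sum_le_sum_abs _ _).trans ?_
      refine (Finset.sum_le_sum (g := fun _ => N' ^ k₀ / B) fun j hj => ?_).trans ?_
      · rw [← sub_mul, abs_mul, abs_pow]
        have h4 : |x| ^ j ≤ N' ^ k₀ :=
          (pow_le_pow_left₀ (abs_nonneg _) hxS.1 j).trans
            (pow_le_pow_right₀ hN1 (Finset.mem_range.1 hj).le)
        calc |(L n₁).coeff j - (L n₂).coeff j| * |x| ^ j ≤ 1 / B * N' ^ k₀ :=
              mul_le_mul (hclose j) h4 (by positivity) (by positivity)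
          _ = N' ^ k₀ / B := by ring
      · rw [Finset.sum_const, Finset.card_range, nsmul_eq_mul]
        calc (k₀ : ℝ) * (N' ^ k₀ / B) = D / B := by rw [hD]; ring
          _ ≤ δ / 4 := hBD
    have e : ((J n₂ - J n₁).map (Int.castRingHom ℝ)).eval x =
        (((J n₂).map (Int.castRingHom ℝ)).eval x + (L n₂).eval x) -
          (((J n₁).map (Int.castRingHom ℝ)).eval x + (L n₁).eval x) +
          ((L n₁).eval x - (L n₂).eval x) := by
      rw [Polynomial.map_sub, eval_sub]
      ring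
    rw [e]
    refine (abs_add_le _ _).trans ?_
    have h5 := abs_sub (((J n₂).map (Int.castRingHom ℝ)).eval x + (L n₂).eval x)
      (((J n₁).map (Int.castRingHom ℝ)).eval x + (L n₁).eval x)
    linarith

end

end Pool.Agent.Helper91K1.IM
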