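import Mathlib

/-! Kronecker's theorem for polynomials with all roots in `[-2, 2]`. -/

set_option autoImplicit false

namespace Pool.Agent.Helper91K1.IM

open Polynomial

theorem norm_one_of_add_inv {η : ℂ} (h0 : η ≠ 0) {x : ℝ} (hx : |x| ≤ 2) (h : η + η⁻¹ = x) :
    ‖η‖ = 1 := by
  have h1 : η * η + 1 = x * η := by
    rw [← h]
    field_simp
  have hre := congrArg Complex.re h1
  have him := congrArg Complex.im h1
  simp only [Complex.add_re, Complex.mul_re, Complex.one_re, Complex.ofReal_re, Complex.ofReal_im,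
    Complex.add_im, Complex.mul_im, Complex.one_im, zero_mul, sub_zero, add_zero] at hre him
  have h2 : η.re * η.re + η.im * η.im = 1 := by
    by_cases hb : η.im = 0
    · rw [hb] at hre ⊢
      obtain ⟨h3, h4⟩ := abs_le.1 hx
      have h5 : (|η.re| - 1) ^ 2 ≤ 0 := by
        have h6 : η.re * η.re + 1 ≤ 2 * |η.re| := by
          have h7 : x * η.re ≤ 2 * |η.re| := by
            calc x * η.re ≤ |x * η.re| := le_abs_self _
              _ = |x| * |η.re| := abs_mul _ _
              _ ≤ 2 * |η.re| := mul_le_mul_of_nonneg_right hx (abs_nonneg _)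
          linarith
        have h8 : |η.re| ^ 2 = η.re * η.re := by rw [sq_abs]; ring
        nlinarith
      have h9 : |η.re| = 1 := by nlinarith [sq_nonneg (|η.re| - 1)]
      have h10 : η.re * η.re = 1 := by
        have : η.re * η.re = |η.re| ^ 2 := by rw [sq_abs]; ring
        rw [this, h9, one_pow]
      linarith
    · have h3 : 2 * η.re = x := by
        have : η.im * (2 * η.re - x) = 0 := by linarith
        rcases mul_eq_zero.1 this with h | h
        · exact absurd h hb
        · linarith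
      rw [← h3] at hre
      linarith
  have h3 : ‖η‖ ^ 2 = 1 := by
    rw [Complex.sq_norm, Complex.normSq_apply]
    exact h2
  have h4 : 0 ≤ ‖η‖ := norm_nonneg _
  nlinarith

/-- **Kronecker.** -/
theorem kronecker {p : ℤ[X]} (hp : p.Monic) {A : Finset ℝ}
    (hA : p.map (Int.castRingHom ℝ) = ∏ x ∈ A, (X - C x)) (h2 : ∀ x ∈ A, |x| ≤ 2) {x : ℝ}
    (hx : x ∈ A) : ∃ k n : ℕ, 0 < n ∧ x = 2 * Real.cos (2 * Real.pi * k / n) := by
  set θ := Real.arccos (x / 2) with hθ
  obtain ⟨hx1, hx2⟩ := abs_le.1 (h2 x hx)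
  have hcos : Real.cos θ = x / 2 := Real.cos_arccos (by linarith) (by linarith)
  set ζ : ℂ := Complex.exp (θ * Complex.I) with hζ
  have hζ0 : ζ ≠ 0 := Complex.exp_ne_zero _
  have hζx : ζ + ζ⁻¹ = x := by
    rw [hζ, ← Complex.exp_neg, ← neg_mul, ← Complex.two_cos, ← Complex.ofReal_cos, hcos]
    push_cast
    ring
  -- roots over ℂ
  have hroot : ∀ y : ℂ, (p.map (Int.castRingHom ℂ)).eval y = 0 → ∃ x' ∈ A, y = (x' : ℝ) := by
    intro y hy
    have e : p.map (Int.castRingHom ℂ) = (p.map (Int.castRingHom ℝ)).map (algebraMap ℝ ℂ) := by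
      rw [Polynomial.map_map]
      congr 1
    rw [e, hA, Polynomial.map_prod, eval_prod, Finset.prod_eq_zero_iff] at hy
    obtain ⟨x', hx', h⟩ := hy
    refine ⟨x', hx', ?_⟩
    simp only [Polynomial.map_sub, map_X, map_C, eval_sub, eval_X, eval_C] at h
    exact sub_eq_zero.1 h
  have hrootx : (p.map (Int.castRingHom ℂ)).eval (x : ℂ) = 0 := by
    have e : p.map (Int.castRingHom ℂ) = (p.map (Int.castRingHom ℝ)).map (algebraMap ℝ ℂ) := by
      rw [Polynomial.map_map]
      congr 1
    rw [e, hA, Polynomial.map_prod, eval_prod]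
    refine Finset.prod_eq_zero hx ?_
    simp
  -- integrality of ζ
  have hxint : IsIntegral ℤ (x : ℂ) := ⟨p, hp, by rwa [eval_map] at hrootx⟩
  have hζint : IsIntegral ℤ ζ := by
    let A' := integralClosure ℤ ℂ
    let x' : A' := ⟨x, hxint⟩
    have h1 : IsIntegral A' ζ := by
      refine ⟨X ^ 2 - C x' * X + C 1, ?_, ?_⟩
      · have : (X ^ 2 - C x' * X + C 1 : A'[X]) = X ^ 2 + (C (-x') * X + C 1) := by
          rw [C_neg]
          ring
        rw [this]
        refine monic_X_pow_add ?_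
        refine (degree_linear_le).trans_lt ?_
        norm_num
      · simp only [eval₂_add, eval₂_sub, eval₂_mul, eval₂_pow, eval₂_X, eval₂_C, map_one, eval₂_one]
        have e1 : (algebraMap A' ℂ) x' = ζ + ζ⁻¹ := hζx.symm
        rw [e1]
        field_simp
        ring
    exact isIntegral_trans ζ h1
  -- the number field
  have hζQ : IsIntegral ℚ ζ := hζint.tower_top
  have : FiniteDimensional ℚ (IntermediateField.adjoin ℚ {ζ}) :=
    IntermediateField.adjoin.finiteDimensional hζQ
  have : NumberField (IntermediateField.adjoin ℚ {ζ}) := ⟨⟩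
  set g := IntermediateField.AdjoinSimple.gen ℚ ζ with hg
  have hgζ : (algebraMap (IntermediateField.adjoin ℚ {ζ}) ℂ) g = ζ :=
    IntermediateField.AdjoinSimple.algebraMap_gen ℚ ζ
  have hgint : IsIntegral ℤ g := by
    have : IsIntegral ℤ ((algebraMap (IntermediateField.adjoin ℚ {ζ}) ℂ) g) := by
      rw [hgζ]
      exact hζint
    exact (isIntegral_algebraMap_iff
      (algebraMap (IntermediateField.adjoin ℚ {ζ}) ℂ).injective).1 this
  have hg0 : g ≠ 0 := by
    intro h
    rw [h, map_zero] at hgζ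
    exact hζ0 hgζ.symm
  have hpg : (p.map (Int.castRingHom (IntermediateField.adjoin ℚ {ζ}))).eval (g + g⁻¹) = 0 := by
    have h1 : (algebraMap (IntermediateField.adjoin ℚ {ζ}) ℂ)
        ((p.map (Int.castRingHom (IntermediateField.adjoin ℚ {ζ}))).eval (g + g⁻¹)) = 0 := by
      rw [eval_map, hom_eval₂, map_add, map_inv₀, hgζ, hζx]
      rw [eval_map] at hrootx
      have e : (algebraMap (IntermediateField.adjoin ℚ {ζ}) ℂ).comp
          (Int.castRingHom (IntermediateField.adjoin ℚ {ζ})) = Int.castRingHom ℂ :=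
        RingHom.ext_int _ _
      rw [e]
      exact hrootx
    exact (map_eq_zero_iff _ (algebraMap (IntermediateField.adjoin ℚ {ζ}) ℂ).injective).1 h1
  obtain ⟨n, hn, hgn⟩ := NumberField.Embeddings.pow_eq_one_of_norm_eq_one
    (IntermediateField.adjoin ℚ {ζ}) ℂ hgint (by
    intro φ
    have h1 : (p.map (Int.castRingHom ℂ)).eval (φ g + (φ g)⁻¹) = 0 := by
      have h2 := congrArg φ hpg
      rw [eval_map, hom_eval₂, map_add, map_inv₀, map_zero] at h2
      rw [eval_map]
      have e : φ.comp (Int.castRingHom (IntermediateField.adjoin ℚ {ζ})) = Int.castRingHom ℂ :=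
        RingHom.ext_int _ _
      rw [e] at h2
      exact h2
    obtain ⟨x', hx', h3⟩ := hroot _ h1
    exact norm_one_of_add_inv ((map_ne_zero_iff _ φ.injective).2 hg0) (h2 x' hx') h3)
  have hζn : ζ ^ n = 1 := by
    rw [← hgζ, ← map_pow, hgn, map_one]
  rw [hζ, ← Complex.exp_nat_mul, Complex.exp_eq_one_iff] at hζn
  obtain ⟨k, hk⟩ := hζn
  have hk' : (n : ℝ) * θ = k * (2 * Real.pi) := by
    have h1 : ((n : ℂ) * (θ * Complex.I)) = ((n : ℂ) * θ) * Complex.I := by ring
    have h3 : (k : ℂ) * (2 * Real.pi * Complex.I) = ((k : ℂ) * (2 * Real.pi)) * Complex.I := by ring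
    rw [h1, h3] at hk
    have h4 := mul_right_cancel₀ Complex.I_ne_zero hk
    exact_mod_cast h4
  have hn0 : (0 : ℝ) < n := by exact_mod_cast hn
  have hk0 : 0 ≤ k := by
    have h1 : 0 ≤ (n : ℝ) * θ := mul_nonneg hn0.le (Real.arccos_nonneg _)
    rw [hk'] at h1
    have h3 : (0 : ℝ) ≤ k := by
      by_contra hc
      push Not at hc
      have := mul_neg_of_neg_of_pos hc (by positivity : (0 : ℝ) < 2 * Real.pi)
      linarith
    exact_mod_cast h3
  refine ⟨k.toNat, n, hn, ?_⟩
  have e1 : ((k.toNat : ℕ) : ℝ) = (k : ℝ) := by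
    have := Int.toNat_of_nonneg hk0
    exact_mod_cast this
  have e2 : 2 * Real.pi * (k.toNat : ℕ) / n = θ := by
    rw [e1, div_eq_iff hn0.ne']
    linarith
  rw [e2, hcos]
  ring

end Pool.Agent.Helper91K1.IM
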