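import Mathlib

/-! Sets of small capacity on the line. -/

set_option autoImplicit false

namespace Pool.Agent.Helper91K1.IM

open Polynomial

theorem cheb_monic (n : ℕ) : (Chebyshev.C ℝ ((n + 1 : ℕ) : ℤ)).Monic ∧
    (Chebyshev.C ℝ ((n + 1 : ℕ) : ℤ)).natDegree = n + 1 := by
  induction n using Nat.strong_induction_on with
  | _ n ih =>
    rcases n with _ | _ | n
    · simp only [zero_add, Nat.cast_one, Chebyshev.C_one]
      exact ⟨monic_X, natDegree_X⟩
    · have e : Chebyshev.C ℝ ((1 + 1 : ℕ) : ℤ) = X ^ 2 - C 2 := by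
        have h := Chebyshev.C_two ℝ
        have e2 : (((1 + 1 : ℕ) : ℤ)) = 2 := by norm_num
        rw [e2, h]
        rfl
      rw [zero_add, e]
      exact ⟨monic_X_pow_sub_C 2 (by norm_num), natDegree_X_pow_sub_C⟩
    · obtain ⟨h1, h2⟩ := ih (n + 1) (by omega)
      obtain ⟨h3, h4⟩ := ih n (by omega)
      have e : Chebyshev.C ℝ ((n + 1 + 1 + 1 : ℕ) : ℤ) =
          X * Chebyshev.C ℝ ((n + 1 + 1 : ℕ) : ℤ) - Chebyshev.C ℝ ((n + 1 : ℕ) : ℤ) := by
        have := Chebyshev.C_add_two ℝ ((n + 1 : ℕ) : ℤ)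
        push_cast at this ⊢
        rw [show ((n : ℤ) + 1 + 1 + 1) = (n : ℤ) + 1 + 2 by ring, this]
      have hm : (X * Chebyshev.C ℝ ((n + 1 + 1 : ℕ) : ℤ)).Monic := monic_X.mul h1
      have hd : (X * Chebyshev.C ℝ ((n + 1 + 1 : ℕ) : ℤ)).natDegree = n + 3 := by
        rw [monic_X.natDegree_mul h1, natDegree_X, h2]
        ring
      have hlt : (Chebyshev.C ℝ ((n + 1 : ℕ) : ℤ)).degree <
          (X * Chebyshev.C ℝ ((n + 1 + 1 : ℕ) : ℤ)).degree := by
        rw [degree_eq_natDegree h3.ne_zero, degree_eq_natDegree hm.ne_zero, hd, h4]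
        exact_mod_cast (by omega : n + 1 < n + 3)
      rw [e]
      refine ⟨hm.sub_of_left hlt, ?_⟩
      rw [natDegree_eq_of_degree_eq (degree_sub_eq_left_of_degree_lt hlt), hd]

theorem cheb_abs_le (n : ℤ) {x : ℝ} (hx : |x| ≤ 2) : |(Chebyshev.C ℝ n).eval x| ≤ 2 := by
  obtain ⟨h1, h2⟩ := abs_le.1 hx
  have e : x = 2 * Real.cos (Real.arccos (x / 2)) := by
    rw [Real.cos_arccos (by linarith) (by linarith)]
    ring
  rw [e, Chebyshev.C_two_mul_real_cos, abs_mul, abs_of_pos (by norm_num : (0 : ℝ) < 2)]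
  have := Real.abs_cos_le_one (n * Real.arccos (x / 2))
  linarith

/-- If a monic polynomial is at most `s < 2` on a set, another one is at most `ρ < 1`. -/
theorem thin_comp {q : ℝ[X]} (hq : q.Monic) (hd : 0 < q.natDegree) {s : ℝ} (hs : s < 2) :
    ∃ q' : ℝ[X], q'.Monic ∧ 0 < q'.natDegree ∧ ∃ ρ : ℝ, ρ < 1 ∧
      ∀ x : ℝ, |q.eval x| ≤ s → |q'.eval x| ≤ ρ := by
  set c : ℝ := max s 1 / 2 with hc
  have hc0 : 0 < c := by
    have : (1 : ℝ) ≤ max s 1 := le_max_right _ _
    positivity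
  have hc1 : c < 1 := by
    have : max s 1 < 2 := max_lt hs (by norm_num)
    rw [hc]
    linarith
  obtain ⟨m, hm⟩ : ∃ m : ℕ, c ^ m * 2 < 1 := by
    have h1 : Filter.Tendsto (fun m : ℕ => c ^ m * 2) Filter.atTop (nhds (0 * 2)) :=
      (tendsto_pow_atTop_nhds_zero_of_lt_one hc0.le hc1).mul_const 2
    rw [zero_mul] at h1
    exact (h1.eventually_lt_const zero_lt_one).exists
  have hm' : c ^ (m + 1) * 2 < 1 := by
    refine lt_of_le_of_lt ?_ hm
    have : c ^ (m + 1) ≤ c ^ m := pow_le_pow_of_le_one hc0.le hc1.le (Nat.le_succ m)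
    linarith
  obtain ⟨h1, h2⟩ := cheb_monic m
  set P := (Chebyshev.C ℝ ((m + 1 : ℕ) : ℤ)).scaleRoots c with hP
  have hPm : P.Monic := monic_scaleRoots_iff c |>.2 h1
  have hPd : P.natDegree = m + 1 := by rw [hP, natDegree_scaleRoots, h2]
  have hPe : ∀ y : ℝ, P.eval (c * y) = c ^ (m + 1) *
      (Chebyshev.C ℝ ((m + 1 : ℕ) : ℤ)).eval y := by
    intro y
    have h3 := scaleRoots_eval₂_mul (p := Chebyshev.C ℝ ((m + 1 : ℕ) : ℤ)) (RingHom.id ℝ) y c
    rw [h2] at h3
    rw [hP]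
    simpa [eval₂_id] using h3
  refine ⟨P.comp q, hPm.comp hq (by omega), ?_, c ^ (m + 1) * 2, hm', fun x hx => ?_⟩
  · rw [natDegree_comp, hPd]
    positivity
  · have e : q.eval x = c * (q.eval x / c) := by field_simp
    rw [eval_comp, e, hPe, abs_mul, abs_of_pos (pow_pos hc0 _)]
    refine mul_le_mul_of_nonneg_left (cheb_abs_le _ ?_) (pow_pos hc0 _).le
    rw [abs_div, abs_of_pos hc0, div_le_iff₀ hc0, hc]
    have := le_max_left s 1
    linarith

/-- The interval `[-2, 2]` without an open interval. -/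
theorem gap {α β : ℝ} (hα : -2 ≤ α) (hαβ : α < β) (hβ : β ≤ 2) :
    ∃ q : ℝ[X], q.Monic ∧ 0 < q.natDegree ∧ ∃ s : ℝ, s < 2 ∧
      ∀ x : ℝ, |x| ≤ 2 → ¬ (α < x ∧ x < β) → |q.eval x| ≤ s := by
  set a := Real.arccos (β / 2) with ha
  set b := Real.arccos (α / 2) with hb
  have hab : a < b := Real.arccos_lt_arccos (by linarith) (by linarith) (by linarith)
  have ha0 : 0 ≤ a := Real.arccos_nonneg _
  have hbπ : b ≤ Real.pi := Real.arccos_le_pi _
  have hπ := Real.pi_pos
  obtain ⟨n, hn⟩ := exists_nat_gt (2 * Real.pi / (b - a))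
  have hba : 0 < b - a := by linarith
  have hn0 : (0 : ℝ) < n := lt_trans (by positivity) hn
  rw [div_lt_iff₀ hba] at hn
  set k := ⌊n * a / Real.pi + 1 / 2⌋₊ with hk
  have hk1 : (k : ℝ) ≤ n * a / Real.pi + 1 / 2 := Nat.floor_le (by positivity)
  have hk2 : n * a / Real.pi + 1 / 2 < k + 1 := Nat.lt_floor_add_one _
  set φ₁ := (k + 1 / 2) * Real.pi / n with hφ₁
  set φ₂ := (k + 3 / 2) * Real.pi / n with hφ₂
  have h1 : a < φ₁ := by
    rw [hφ₁, lt_div_iff₀ hn0]
    have : n * a / Real.pi < k + 1 / 2 := by linarith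
    rw [div_lt_iff₀ hπ] at this
    linarith
  have h12 : φ₁ < φ₂ := by
    rw [hφ₁, hφ₂]
    apply div_lt_div_of_pos_right _ hn0
    nlinarith
  have h2 : φ₂ < b := by
    rw [hφ₂, div_lt_iff₀ hn0]
    have h3 : (k + 3 / 2) * Real.pi ≤ (n * a / Real.pi + 2) * Real.pi :=
      mul_le_mul_of_nonneg_right (by linarith) hπ.le
    have h4 : (n * a / Real.pi + 2) * Real.pi = n * a + 2 * Real.pi := by
      field_simp
    nlinarith
  have hn1 : 0 < n := by exact_mod_cast hn0
  have hcosn : ∀ j : ℕ, Real.cos (((n : ℕ) : ℤ) * ((j + 1 / 2) * Real.pi / n)) = 0 := by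
    intro j
    have e : (((n : ℕ) : ℤ) : ℝ) * ((j + 1 / 2) * Real.pi / n) = j * Real.pi + Real.pi / 2 := by
      push_cast
      field_simp
    rw [e, Real.cos_add_pi_div_two, Real.sin_nat_mul_pi, neg_zero]
  set z₁ := 2 * Real.cos φ₂ with hz₁
  set z₂ := 2 * Real.cos φ₁ with hz₂
  have hcb : Real.cos b = α / 2 := Real.cos_arccos (by linarith) (by linarith)
  have hca : Real.cos a = β / 2 := Real.cos_arccos (by linarith) (by linarith)
  have hz1 : α < z₁ := by
    have := Real.cos_lt_cos_of_nonneg_of_le_pi (by linarith) hbπ h2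
    rw [hz₁]
    linarith
  have hz12 : z₁ < z₂ := by
    have := Real.cos_lt_cos_of_nonneg_of_le_pi (by linarith) (by linarith) h12
    rw [hz₁, hz₂]
    linarith
  have hz2 : z₂ < β := by
    have := Real.cos_lt_cos_of_nonneg_of_le_pi ha0 (by linarith) h1
    rw [hz₂]
    linarith
  set T := Chebyshev.C ℝ ((n : ℕ) : ℤ) with hT
  have hT1 : T.eval z₁ = 0 := by
    rw [hT, hz₁, Chebyshev.C_two_mul_real_cos]
    have := hcosn (k + 1)
    rw [hφ₂]
    have e : ((k + 1 : ℕ) + 1 / 2 : ℝ) = k + 3 / 2 := by push_cast; ring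
    rw [e] at this
    rw [this, mul_zero]
  have hT2 : T.eval z₂ = 0 := by
    rw [hT, hz₂, Chebyshev.C_two_mul_real_cos, hφ₁, hcosn k, mul_zero]
  obtain ⟨g, hg⟩ := dvd_iff_isRoot.2 (show T.IsRoot z₁ from hT1)
  have hg2 : g.IsRoot z₂ := by
    rw [hg, eval_mul] at hT2
    rcases mul_eq_zero.1 hT2 with h | h
    · simp at h
      linarith
    · exact h
  obtain ⟨h, hh⟩ := dvd_iff_isRoot.2 hg2
  have hTf : T = (X - C z₁) * (X - C z₂) * h := by
    rw [hg, hh]
    ring
  have hTm : T.Monic ∧ T.natDegree = n := by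
    obtain ⟨n', rfl⟩ : ∃ n', n = n' + 1 := ⟨n - 1, by omega⟩
    exact cheb_monic n'
  have hh0 : h ≠ 0 := by
    rintro rfl
    rw [mul_zero] at hTf
    exact hTm.1.ne_zero hTf
  have hhd : h.degree < T.degree := by
    rw [degree_eq_natDegree hh0, degree_eq_natDegree hTm.1.ne_zero]
    have e : T.natDegree = 2 + h.natDegree := by
      rw [hTf, natDegree_mul (mul_ne_zero (X_sub_C_ne_zero _) (X_sub_C_ne_zero _)) hh0,
        natDegree_mul (X_sub_C_ne_zero _) (X_sub_C_ne_zero _), natDegree_X_sub_C,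
        natDegree_X_sub_C]
    rw [e]
    exact_mod_cast (by omega : h.natDegree < 2 + h.natDegree)
  set η := min ((z₁ - α) ^ 2) ((β - z₂) ^ 2) with hη
  have hη0 : 0 < η := lt_min (pow_pos (by linarith) 2) (pow_pos (by linarith) 2)
  have hhd' : (C η * h).degree < T.degree := by
    rw [degree_C_mul hη0.ne']
    exact hhd
  refine ⟨T - C η * h, hTm.1.sub_of_left hhd', ?_, 2 * (1 - η / 16), by linarith, ?_⟩
  · rw [natDegree_eq_of_degree_eq (degree_sub_eq_left_of_degree_lt hhd'), hTm.2]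
    exact hn1
  · intro x hx hxI
    obtain ⟨hx1, hx2⟩ := abs_le.1 hx
    set y := (x - z₁) * (x - z₂) with hy
    have hyT : T.eval x = y * h.eval x := by
      rw [hTf]
      simp only [eval_mul, eval_sub, eval_X, eval_C]
      rfl
    have hyη : η ≤ y := by
      by_cases hxα : α < x
      · have hxβ : β ≤ x := by
          by_contra hc
          exact hxI ⟨hxα, by linarith⟩
        refine (min_le_right _ _).trans ?_
        rw [hy]
        nlinarith
      · push Not at hxα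
        refine (min_le_left _ _).trans ?_
        rw [hy]
        nlinarith
    have hy16 : y ≤ 16 := by
      rw [hy]
      nlinarith
    have hTx := cheb_abs_le ((n : ℕ) : ℤ) hx
    rw [← hT, hyT, abs_mul, abs_of_pos (by linarith : 0 < y)] at hTx
    rw [eval_sub, eval_mul, eval_C, hyT, ← sub_mul, abs_mul, abs_of_nonneg (by linarith)]
    have h3 : 0 ≤ |h.eval x| := abs_nonneg _
    have h5 : y * |h.eval x| * (η / 16) ≤ |h.eval x| * η := by
      have : y / 16 ≤ 1 := by linarith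
      have h6 : y / 16 * (|h.eval x| * η) ≤ 1 * (|h.eval x| * η) :=
        mul_le_mul_of_nonneg_right this (by positivity)
      nlinarith
    have hη16 : 0 ≤ 1 - η / 16 := by
      have : η ≤ 16 := hyη.trans hy16
      linarith
    nlinarith

end Pool.Agent.Helper91K1.IM
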