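import Pool.Agent.Helper91K1.IM.Fek
import Pool.Agent.Helper91K1.IM.Thin
import Pool.Agent.W353.L1.Pairs

/-! Bounded functions on the primes with integer moments: the dichotomy. -/

set_option autoImplicit false

namespace Pool.Agent.Helper91K1.IM

open Complex Filter Topology ComplexConjugate Pool.Agent.H341R2 NumberField IsDedekindDomain
  Pool.Agent.W401.Cheb Pool.Agent.W540.BE Pool.Agent.W353.L1 Polynomial

section
variable {F : Type} [Field F] [NumberField F]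

theorem has_zero : Has (F := F) (fun _ => 0) 0 := by
  refine (has_one (F := F)).const_mul 0 |>.congr (fun v => by simp) (by simp)

theorem has_sum {κ : Type*} (S : Finset κ) (φ : κ → HeightOneSpectrum (𝓞 F) → ℝ) (m : κ → ℝ)
    (h : ∀ k ∈ S, Has (φ k) (m k)) : Has (fun v => ∑ k ∈ S, φ k v) (∑ k ∈ S, m k) := by
  classical
  induction S using Finset.induction_on with
  | empty => simpa using has_zero
  | insert a S ha ih =>
    have h1 := (h a (Finset.mem_insert_self _ _)).add (ih fun k hk => h k (Finset.mem_insert_of_mem hk))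
    refine h1.congr (fun v => ?_) ?_
    · rw [Finset.sum_insert ha]
    · rw [Finset.sum_insert ha]

/-- the mean value at `ε` -/
noncomputable def av (φ : HeightOneSpectrum (𝓞 F) → ℝ) (ε : ℝ) : ℝ := (EP (nm F) ε φ) / lam ε

theorem lam_pos : ∀ᶠ ε : ℝ in 𝓝[>] 0, 0 < lam ε := lam_tendsto.eventually_gt_atTop 0

theorem av_mono {φ ψ : HeightOneSpectrum (𝓞 F) → ℝ} {B B' : ℝ} (hφ : ∀ v, |φ v| ≤ B)
    (hψ : ∀ v, |ψ v| ≤ B') (h : ∀ v, φ v ≤ ψ v) :
    ∀ᶠ ε : ℝ in 𝓝[>] 0, av φ ε ≤ av ψ ε := by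
  filter_upwards [lam_pos, self_mem_nhdsWithin] with ε h1 h2
  have hε : (0 : ℝ) < ε := h2
  unfold av
  apply div_le_div_of_nonneg_right _ h1.le
  have h3 : ∀ v, |ψ v - φ v| ≤ B' + B := fun v =>
    (abs_sub _ _).trans (add_le_add (hψ v) (hφ v))
  have h4 := EP_add (normSys (F := F)) hε hφ h3
  have e : (fun v => φ v + (ψ v - φ v)) = ψ := by
    funext v
    ring
  rw [e] at h4
  rw [h4]
  have := EP_nonneg (N := nm F) (ε := ε) (φ := fun v => ψ v - φ v) fun v => by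
    have := h v
    linarith
  linarith

theorem av_add {φ ψ : HeightOneSpectrum (𝓞 F) → ℝ} {B B' : ℝ} (hφ : ∀ v, |φ v| ≤ B)
    (hψ : ∀ v, |ψ v| ≤ B') {ε : ℝ} (hε : 0 < ε) :
    av (fun v => φ v + ψ v) ε = av φ ε + av ψ ε := by
  unfold av
  rw [EP_add (normSys (F := F)) hε hφ hψ, add_div]

theorem av_const_mul (c : ℝ) (φ : HeightOneSpectrum (𝓞 F) → ℝ) (ε : ℝ) :
    av (fun v => c * φ v) ε = c * av φ ε := by
  unfold av
  rw [EP_const_mul, mul_div_assoc]

theorem av_nonneg {φ : HeightOneSpectrum (𝓞 F) → ℝ} (hφ : ∀ v, 0 ≤ φ v) :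
    ∀ᶠ ε : ℝ in 𝓝[>] 0, 0 ≤ av φ ε := by
  filter_upwards [lam_pos] with ε h1
  exact div_nonneg (EP_nonneg hφ) h1.le

theorem has_av {φ : HeightOneSpectrum (𝓞 F) → ℝ} {m : ℝ} (h : Has φ m) :
    Tendsto (av φ) (𝓝[>] 0) (𝓝 m) := h.2

theorem has_nonneg {φ : HeightOneSpectrum (𝓞 F) → ℝ} {m : ℝ} (h : Has φ m)
    (hφ : ∀ v, 0 ≤ φ v) : 0 ≤ m :=
  ge_of_tendsto h.2 (av_nonneg hφ)

theorem has_unique {φ : HeightOneSpectrum (𝓞 F) → ℝ} {m m' : ℝ} (h : Has φ m)
    (h' : Has φ m') : m = m' := tendsto_nhds_unique h.2 h'.2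

theorem av_squeeze {φ ψ : HeightOneSpectrum (𝓞 F) → ℝ} (h : Has ψ 0) (h0 : ∀ v, 0 ≤ φ v)
    (h1 : ∀ v, φ v ≤ ψ v) : Has φ 0 := by
  obtain ⟨B, hB⟩ := h.1
  have hb : ∀ v, |φ v| ≤ B := fun v => by
    rw [abs_of_nonneg (h0 v)]
    exact (h1 v).trans ((le_abs_self _).trans (hB v))
  refine ⟨⟨B, hb⟩, ?_⟩
  exact tendsto_of_tendsto_of_tendsto_of_le_of_le' tendsto_const_nhds h.2
    (av_nonneg h0) (av_mono hb hB h1)

/-- the moments of `T` with respect to the weight `w` -/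
structure IntMom (T w : HeightOneSpectrum (𝓞 F) → ℝ) (N W : ℝ) (R : ℕ) (m : ℕ → ℤ) : Prop where
  hT : ∀ v, |T v| ≤ N
  hw0 : ∀ v, 0 ≤ w v
  hwW : ∀ v, w v ≤ W
  hm : ∀ r ≤ R, Has (fun v => T v ^ r * w v) (m r)

variable {T w : HeightOneSpectrum (𝓞 F) → ℝ} {N W : ℝ} {R : ℕ} {m : ℕ → ℤ}

theorem IntMom.mono (h : IntMom T w N W R m) {R' : ℕ} (hR : R' ≤ R) : IntMom T w N W R' m :=
  ⟨h.hT, h.hw0, h.hwW, fun r hr => h.hm r (hr.trans hR)⟩

theorem eval_sum' {R : Type*} [Ring R] (f : R[X]) (n : ℕ) (h : f.natDegree ≤ n) (x : R) :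
    f.eval x = ∑ j ∈ Finset.range (n + 1), f.coeff j * x ^ j :=
  eval_eq_sum_range' (Nat.lt_succ_of_le h) x

theorem IntMom.poly (h : IntMom T w N W R m) (f : ℝ[X]) (hf : f.natDegree ≤ R) :
    Has (fun v => f.eval (T v) * w v) (∑ j ∈ Finset.range (R + 1), f.coeff j * m j) := by
  have h1 := has_sum (Finset.range (R + 1)) (fun j v => f.coeff j * (T v ^ j * w v))
    (fun j => f.coeff j * m j) fun j hj =>
      (h.hm j (by have := Finset.mem_range.1 hj; omega)).const_mul (f.coeff j)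
  refine h1.congr (fun v => ?_) rfl
  rw [eval_sum' f R hf, Finset.sum_mul]
  exact Finset.sum_congr rfl fun j _ => by ring

theorem IntMom.intPoly (h : IntMom T w N W R m) (f : ℤ[X]) (hf : f.natDegree ≤ R) :
    ∃ z : ℤ, Has (fun v => (f.map (Int.castRingHom ℝ)).eval (T v) * w v) z := by
  refine ⟨∑ j ∈ Finset.range (R + 1), f.coeff j * m j, ?_⟩
  have h1 := h.poly (f.map (Int.castRingHom ℝ)) (natDegree_map_le.trans hf)
  refine h1.congr (fun v => rfl) ?_
  push_cast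
  exact Finset.sum_congr rfl fun j _ => by rw [coeff_map]; simp

theorem exists_bound (f : ℝ[X]) (N : ℝ) : ∃ A : ℝ, 1 ≤ A ∧ ∀ x, |x| ≤ N → |f.eval x| ≤ A := by
  obtain ⟨A, hA⟩ := (isCompact_Icc (a := -N) (b := N)).exists_bound_of_continuousOn
    (f := fun x => f.eval x) f.continuous.continuousOn
  refine ⟨max A 1, le_max_right _ _, fun x hx => ?_⟩
  have := hA x (abs_le.1 hx)
  exact this.trans (le_max_left _ _)

open Classical in
/-- **The dichotomy.** -/
theorem dich {q : ℝ[X]} (hq : q.Monic) (hd : 0 < q.natDegree) {s : ℝ} (hs : s < 2) (N W : ℝ) :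
    ∃ P : ℤ[X], P.Monic ∧ 0 < P.natDegree ∧ ∃ c : ℝ, 0 < c ∧
      ∀ (F : Type) [Field F] [NumberField F] (T w : HeightOneSpectrum (𝓞 F) → ℝ) (m : ℕ → ℤ),
        IntMom T w N W (2 * P.natDegree) m →
        (∀ᶠ ε : ℝ in 𝓝[>] 0, c ≤ av (fun v => if |q.eval (T v)| ≤ s then 0 else w v) ε) ∨
        Has (fun v => (P.map (Int.castRingHom ℝ)).eval (T v) ^ 2 * w v) 0 := by
  obtain ⟨q', hq', hd', ρ, hρ, hqq⟩ := thin_comp hq hd hs
  set W' : ℝ := |W| + 1 with hW'
  have hW1 : 1 ≤ W' := by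
    have := abs_nonneg W
    linarith
  set δ : ℝ := 1 / (2 * W') with hδ
  have hδ0 : 0 < δ := by positivity
  obtain ⟨P, hP, hPd, hPδ⟩ := fekete hq' hd' (N := N) hρ hδ0
  obtain ⟨A, hA1, hA⟩ := exists_bound (P.map (Int.castRingHom ℝ)) N
  have hA0 : 0 < A := by linarith
  refine ⟨P, hP, hPd, 1 / (4 * A ^ 2), by positivity, fun F _ _ T w m h => ?_⟩
  obtain ⟨z, hz⟩ := h.intPoly (P ^ 2) (by rw [natDegree_pow])
  have hz' : Has (fun v => (P.map (Int.castRingHom ℝ)).eval (T v) ^ 2 * w v) z := by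
    refine hz.congr (fun v => ?_) rfl
    rw [Polynomial.map_pow, eval_pow]
  have hz0 : (0 : ℝ) ≤ z := has_nonneg hz' fun v => mul_nonneg (sq_nonneg _) (h.hw0 v)
  have hz0' : 0 ≤ z := by exact_mod_cast hz0
  rcases hz0'.eq_or_lt with h0 | h0
  · right
    rw [← h0] at hz'
    simpa using hz'
  left
  have hz1 : (1 : ℝ) ≤ z := by exact_mod_cast h0
  set g : HeightOneSpectrum (𝓞 F) → ℝ := fun v => if |q.eval (T v)| ≤ s then 0 else w v with hg
  have hwW : ∀ v, |w v| ≤ W' := fun v => by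
    rw [abs_of_nonneg (h.hw0 v)]
    have := h.hwW v
    have := le_abs_self W
    linarith
  have hgb : ∀ v, |g v| ≤ W' := fun v => by
    rw [hg]
    dsimp only
    split_ifs
    · rw [abs_zero]
      linarith
    · exact hwW v
  -- the pointwise inequality
  have hpt : ∀ v, (P.map (Int.castRingHom ℝ)).eval (T v) ^ 2 * w v ≤
      δ ^ 2 * w v + A ^ 2 * g v := by
    intro v
    rw [hg]
    dsimp only
    split_ifs with hv
    · rw [mul_zero, add_zero]
      refine mul_le_mul_of_nonneg_right ?_ (h.hw0 v)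
      have h1 := hPδ (T v) (h.hT v) (hqq _ hv)
      have h2 := sq_le_sq' (by linarith [abs_nonneg ((P.map (Int.castRingHom ℝ)).eval (T v))]) h1
      rwa [sq_abs] at h2
    · have h1 := hA (T v) (h.hT v)
      have h2 := sq_le_sq' (by linarith [abs_nonneg ((P.map (Int.castRingHom ℝ)).eval (T v))]) h1
      rw [sq_abs] at h2
      have h3 := mul_le_mul_of_nonneg_right h2 (h.hw0 v)
      have h4 : 0 ≤ δ ^ 2 * w v := mul_nonneg (sq_nonneg _) (h.hw0 v)
      linarith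
  have hb1 : ∀ v, |δ ^ 2 * w v| ≤ δ ^ 2 * W' := fun v => by
    rw [abs_mul, abs_of_nonneg (sq_nonneg δ)]
    exact mul_le_mul_of_nonneg_left (hwW v) (sq_nonneg _)
  have hb2 : ∀ v, |A ^ 2 * g v| ≤ A ^ 2 * W' := fun v => by
    rw [abs_mul, abs_of_nonneg (sq_nonneg A)]
    exact mul_le_mul_of_nonneg_left (hgb v) (sq_nonneg _)
  obtain ⟨B, hB⟩ := hz'.1
  have e1 := av_mono hB (fun v => (abs_add_le _ _).trans (add_le_add (hb1 v) (hb2 v))) hpt
  have e2 := av_mono (F := F) hwW (B' := W') (ψ := fun _ => W') (fun v => by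
    rw [abs_of_nonneg (by linarith)]) fun v => (le_abs_self _).trans (hwW v)
  have e3 : Has (F := F) (fun _ => W') W' :=
    (has_one (F := F)).const_mul W' |>.congr (fun v => by ring) (by ring)
  have e4 := (has_av e3).eventually_lt_const (show W' < 2 * W' by linarith)
  have e5 := (has_av hz').eventually_const_lt (show (3 / 4 : ℝ) < z by linarith)
  filter_upwards [e1, e2, e4, e5, self_mem_nhdsWithin] with ε h1 h2 h3 h4 h5
  have hε : (0 : ℝ) < ε := h5
  rw [av_add hb1 hb2 hε, av_const_mul, av_const_mul] at h1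
  have h6 : av w ε ≤ 2 * W' := by
    have := h2.trans h3.le
    exact this
  have h7 : δ ^ 2 * av w ε ≤ 1 / 2 := by
    calc δ ^ 2 * av w ε ≤ δ ^ 2 * (2 * W') := mul_le_mul_of_nonneg_left h6 (sq_nonneg _)
      _ = 1 / (2 * W') := by rw [hδ]; field_simp
      _ ≤ 1 / 2 := by
        rw [div_le_div_iff₀ (by positivity) (by norm_num)]
        linarith
  rw [div_le_iff₀ (by positivity)]
  nlinarith

end

end Pool.Agent.Helper91K1.IM
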