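import Pool.Agent.Helper91K1.IM.Mom
import Pool.Agent.Helper91K1.IM.Atom
import Pool.Agent.Helper91K1.IM.Kron

/-! Bounded functions on the primes with integer moments: the finite case and the growth. -/

set_option autoImplicit false

namespace Pool.Agent.Helper91K1.IM

open Complex Filter Topology ComplexConjugate Pool.Agent.H341R2 NumberField IsDedekindDomain
  Pool.Agent.W401.Cheb Pool.Agent.W540.BE Pool.Agent.W353.L1 Polynomial

section
variable {F : Type} [Field F] [NumberField F]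
variable {T w : HeightOneSpectrum (𝓞 F) → ℝ} {N W : ℝ} {m : ℕ → ℤ}

theorem has_Mf (h : ∀ R, IntMom T w N W R m) (f : ℝ[X]) :
    Has (fun v => f.eval (T v) * w v) (Mf m f) :=
  ((h f.natDegree).poly f le_rfl).congr (fun _ => rfl) (Mf_range m f le_rfl).symm

theorem pos_of (h : ∀ R, IntMom T w N W R m) : Pos m N := fun f hf =>
  has_nonneg (has_Mf h f) fun v => mul_nonneg (hf _ ((h 0).hT v)) ((h 0).hw0 v)

/-- `p` is the polynomial, `A` the set of the atoms and `c` their masses -/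
structure Atoms (m : ℕ → ℤ) (N : ℝ) (p : ℤ[X]) (A : Finset ℝ) (c : ℝ → ℝ) : Prop where
  monic : p.Monic
  prod : p.map (Int.castRingHom ℝ) = ∏ x ∈ A, (X - C x)
  bound : ∀ x ∈ A, |x| ≤ N
  pos : ∀ x ∈ A, 0 < c x
  mom : ∀ r : ℕ, (m r : ℝ) = ∑ x ∈ A, c x * x ^ r

open Classical in
/-- concentration on `A` -/
def Conc (T w : HeightOneSpectrum (𝓞 F) → ℝ) (A : Finset ℝ) : Prop :=
  ∀ δ : ℝ, 0 < δ → Has (fun v => if ∃ x ∈ A, |T v - x| < δ then 0 else w v) 0

theorem finite_type (h : ∀ R, IntMom T w N W R m) {P : ℤ[X]} (hP : P.Monic)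
    (h0 : Has (fun v => (P.map (Int.castRingHom ℝ)).eval (T v) ^ 2 * w v) 0) :
    ∃ (p : ℤ[X]) (A : Finset ℝ) (c : ℝ → ℝ), Atoms m N p A c ∧ Conc T w A := by
  classical
  have h1 : Mf m ((P.map (Int.castRingHom ℝ)) ^ 2) = 0 := by
    refine has_unique (has_Mf h _) (h0.congr (fun v => ?_) rfl)
    rw [eval_pow]
  obtain ⟨p, A, c, hp, hA, hb, hc, hM⟩ := atoms (pos_of h) hP h1
  refine ⟨p, A, c, ⟨hp, hA, hb, hc, fun r => ?_⟩, fun δ hδ => ?_⟩
  · rw [← Mf_X, hM]
    simp
  · set g := (p.map (Int.castRingHom ℝ)) ^ 2 with hg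
    have h2 : Mf m g = 0 := by
      rw [hM]
      refine Finset.sum_eq_zero fun x hx => ?_
      rw [hg, eval_pow, hA, eval_prod_X_sub, Finset.prod_eq_zero hx (sub_self x)]
      ring
    have h3 := (has_Mf h g).const_mul ((δ ^ A.card) ^ 2)⁻¹
    rw [h2, mul_zero] at h3
    refine av_squeeze h3 (fun v => ?_) fun v => ?_
    · split_ifs
      · exact le_rfl
      · exact (h 0).hw0 v
    · have hge : 0 ≤ g.eval (T v) := by
        rw [hg, eval_pow]
        exact sq_nonneg _
      split_ifs with hv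
      · exact mul_nonneg (by positivity) (mul_nonneg hge ((h 0).hw0 v))
      · push Not at hv
        have h4 : (δ ^ A.card) ^ 2 ≤ g.eval (T v) := by
          rw [hg, eval_pow, hA, eval_prod_X_sub, ← sq_abs (∏ y ∈ A, (T v - y)), Finset.abs_prod]
          refine pow_le_pow_left₀ (by positivity) ?_ 2
          rw [← Finset.prod_const]
          exact Finset.prod_le_prod (fun _ _ => hδ.le) fun y hy => hv y hy
        have h5 : (0 : ℝ) < (δ ^ A.card) ^ 2 := by positivity
        rw [← mul_assoc, inv_mul_eq_div]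
        have h6 : 1 ≤ g.eval (T v) / (δ ^ A.card) ^ 2 := by
          rw [le_div_iff₀ h5]
          linarith
        have h7 := mul_le_mul_of_nonneg_right h6 ((h 0).hw0 v)
        linarith

open Classical in
/-- the interval `[-2, 2]` without an open interval -/
theorem dich_gap {α β : ℝ} (hα : -2 ≤ α) (hαβ : α < β) (hβ : β ≤ 2) (W : ℝ) :
    ∃ P : ℤ[X], P.Monic ∧ 0 < P.natDegree ∧ ∃ c : ℝ, 0 < c ∧
      ∀ (F : Type) [Field F] [NumberField F] (T w : HeightOneSpectrum (𝓞 F) → ℝ) (m : ℕ → ℤ),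
        IntMom T w 2 W (2 * P.natDegree) m →
        (∀ᶠ ε : ℝ in 𝓝[>] 0, c ≤ av (fun v => if α < T v ∧ T v < β then w v else 0) ε) ∨
        Has (fun v => (P.map (Int.castRingHom ℝ)).eval (T v) ^ 2 * w v) 0 := by
  obtain ⟨q, hq, hd, s, hs, hqs⟩ := gap hα hαβ hβ
  obtain ⟨P, hP, hPd, c, hc, hall⟩ := dich hq hd hs 2 W
  refine ⟨P, hP, hPd, c, hc, fun F _ _ T w m h => ?_⟩
  rcases hall F T w m h with h1 | h1
  · left
    have hb : ∀ v, |w v| ≤ W := fun v => by
      rw [abs_of_nonneg (h.hw0 v)]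
      exact h.hwW v
    have hW : 0 ≤ W := by
      obtain ⟨v⟩ : Nonempty (HeightOneSpectrum (𝓞 F)) := by
        by_contra hc
        rw [not_nonempty_iff] at hc
        obtain ⟨ε, h3⟩ := h1.exists
        unfold av EP at h3
        rw [tsum_empty, zero_div] at h3
        linarith
      exact (abs_nonneg _).trans (hb v)
    have h2 := av_mono (F := F) (φ := fun v => if |q.eval (T v)| ≤ s then 0 else w v)
      (ψ := fun v => if α < T v ∧ T v < β then w v else 0) (B := W) (B' := W)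
      (fun v => by
        split_ifs
        · rw [abs_zero]; exact hW
        · exact hb v)
      (fun v => by
        split_ifs
        · exact hb v
        · rw [abs_zero]; exact hW)
      (fun v => by
        by_cases hv : α < T v ∧ T v < β
        · rw [if_pos hv]
          split_ifs
          · exact h.hw0 v
          · exact le_rfl
        · rw [if_neg hv, if_pos (hqs _ (h.hT v) hv)])
    filter_upwards [h1, h2] with ε h3 h4
    exact h3.trans h4
  · exact Or.inr h1

/-- **Growth of the even moments.** -/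
theorem growth (h : ∀ R, IntMom T w N W R m) {a : ℝ} (ha0 : 0 < a) (ha : a < 2) :
    (∃ r₀ : ℕ, ∀ r ≥ r₀, a ^ (2 * r) ≤ m (2 * r)) ∨
    ∃ (p : ℤ[X]) (A : Finset ℝ) (c : ℝ → ℝ), Atoms m N p A c ∧ Conc T w A ∧ ∀ x ∈ A, |x| ≤ a := by
  classical
  by_cases h1 : ∃ r₀ : ℕ, ∀ r ≥ r₀, a ^ (2 * r) ≤ m (2 * r)
  · exact Or.inl h1
  right
  push Not at h1
  set b := (a + 2) / 2 with hb
  have hab : a < b := by linarith
  have hb2 : b < 2 := by linarith
  have hb0 : 0 < b := by linarith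
  -- powers of quotients become small
  have hsmall : ∀ (y η : ℝ), a < y → 0 < η → ∃ r : ℕ, (m (2 * r) : ℝ) < η * y ^ (2 * r) := by
    intro y η hy hη
    have hy0 : 0 < y := ha0.trans hy
    have h2 : Tendsto (fun r : ℕ => (a / y) ^ r) atTop (𝓝 0) :=
      tendsto_pow_atTop_nhds_zero_of_lt_one (by positivity) ((div_lt_one hy0).2 hy)
    obtain ⟨r₀, hr₀⟩ := (h2.eventually_lt_const hη).exists_forall_of_atTop
    obtain ⟨r, hr, hr'⟩ := h1 r₀
    refine ⟨r, hr'.trans ?_⟩
    have h3 := hr₀ (2 * r) (by omega)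
    rw [div_pow, div_lt_iff₀ (by positivity)] at h3
    exact h3
  obtain ⟨P, hP, hPd, c, hc, hall⟩ := dich (q := (X : ℝ[X])) monic_X (by rw [natDegree_X]; norm_num)
    hb2 N W
  have hfin : Has (fun v => (P.map (Int.castRingHom ℝ)).eval (T v) ^ 2 * w v) 0 := by
    rcases hall F T w m (h _) with h2 | h2
    · exfalso
      obtain ⟨r, hr⟩ := hsmall b c hab hc
      have h3 := ((h (2 * r)).hm (2 * r) le_rfl).const_mul ((b ^ (2 * r))⁻¹)
      obtain ⟨B, hB⟩ := h3.1
      have hwb : ∀ v, |w v| ≤ |W| := fun v => by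
        rw [abs_of_nonneg ((h 0).hw0 v)]
        exact ((h 0).hwW v).trans (le_abs_self _)
      have h4 := av_mono (F := F)
        (φ := fun v => if |(X : ℝ[X]).eval (T v)| ≤ b then 0 else w v)
        (ψ := fun v => (b ^ (2 * r))⁻¹ * (T v ^ (2 * r) * w v)) (B := |W|) (B' := B)
        (fun v => by
          split_ifs
          · rw [abs_zero]; exact abs_nonneg _
          · exact hwb v) hB
        (fun v => by
          have h5 : 0 ≤ T v ^ (2 * r) := by
            rw [pow_mul]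
            exact pow_nonneg (sq_nonneg _) _
          split_ifs with hv
          · exact mul_nonneg (by positivity) (mul_nonneg h5 ((h 0).hw0 v))
          · rw [eval_X] at hv
            push Not at hv
            have h6 : b ^ (2 * r) ≤ T v ^ (2 * r) := by
              have h7 : T v ^ (2 * r) = |T v| ^ (2 * r) := by
                rw [pow_mul, pow_mul, sq_abs]
              rw [h7]
              exact pow_le_pow_left₀ hb0.le hv.le _
            rw [← mul_assoc, inv_mul_eq_div]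
            have h8 : 1 ≤ T v ^ (2 * r) / b ^ (2 * r) := by
              rw [le_div_iff₀ (by positivity)]
              linarith
            have h9 := mul_le_mul_of_nonneg_right h8 ((h 0).hw0 v)
            linarith)
      have h5 : c ≤ (b ^ (2 * r))⁻¹ * (m (2 * r) : ℝ) :=
        ge_of_tendsto (has_av h3) (by
          filter_upwards [h2, h4] with ε h6 h7
          exact h6.trans h7)
      rw [inv_mul_eq_div, le_div_iff₀ (by positivity)] at h5
      linarith
    · exact h2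
  obtain ⟨p, A, c', hA, hconc⟩ := finite_type h hP hfin
  refine ⟨p, A, c', hA, hconc, fun x hx => ?_⟩
  by_contra hcon
  push Not at hcon
  obtain ⟨r, hr⟩ := hsmall |x| (c' x) hcon (hA.pos x hx)
  have h2 : c' x * |x| ^ (2 * r) ≤ m (2 * r) := by
    rw [hA.mom]
    have e : ∀ y : ℝ, |y| ^ (2 * r) = y ^ (2 * r) := fun y => by
      rw [pow_mul, pow_mul, sq_abs]
    rw [e]
    refine Finset.single_le_sum (f := fun y => c' y * y ^ (2 * r)) (fun y hy => ?_) hx
    refine mul_nonneg (hA.pos y hy).le ?_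
    rw [pow_mul]
    exact pow_nonneg (sq_nonneg _) _
  linarith

theorem Atoms.cos {p : ℤ[X]} {A : Finset ℝ} {c : ℝ → ℝ} (h : Atoms m N p A c)
    (h2 : ∀ x ∈ A, |x| ≤ 2) : ∀ x ∈ A, ∃ k n : ℕ, 0 < n ∧ x = 2 * Real.cos (2 * Real.pi * k / n) :=
  fun _ hx => kronecker h.monic h.prod h2 hx

/-- the relative mean value -/
noncomputable def dm (φ : HeightOneSpectrum (𝓞 F) → ℝ) (ε : ℝ) : ℝ :=
  (∑' v, φ v * ((Ideal.absNorm v.asIdeal : ℕ) : ℝ) ^ (-(1 + ε))) /
    ∑' v : HeightOneSpectrum (𝓞 F), ((Ideal.absNorm v.asIdeal : ℕ) : ℝ) ^ (-(1 + ε))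

theorem dm_eq (φ : HeightOneSpectrum (𝓞 F) → ℝ) : ∀ᶠ ε : ℝ in 𝓝[>] 0,
    dm φ ε = av φ ε / av (fun _ : HeightOneSpectrum (𝓞 F) => 1) ε := by
  filter_upwards [lam_pos] with ε h1
  unfold dm av EP
  simp only [one_mul]
  rw [div_div_div_cancel_right₀ h1.ne']
  rfl

theorem one_bounds : ∀ᶠ ε : ℝ in 𝓝[>] 0, 1 / 2 < av (fun _ : HeightOneSpectrum (𝓞 F) => 1) ε ∧
    av (fun _ : HeightOneSpectrum (𝓞 F) => 1) ε < 2 := by
  have h := has_av (has_one (F := F))
  filter_upwards [h.eventually_const_lt (show (1 / 2 : ℝ) < 1 by norm_num),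
    h.eventually_lt_const (show (1 : ℝ) < 2 by norm_num)] with ε h1 h2
  exact ⟨h1, h2⟩

theorem dm_lower {φ : HeightOneSpectrum (𝓞 F) → ℝ} {c : ℝ} (hc : 0 < c)
    (h : ∀ᶠ ε : ℝ in 𝓝[>] 0, c ≤ av φ ε) : ∀ᶠ ε : ℝ in 𝓝[>] 0, c / 2 ≤ dm φ ε := by
  filter_upwards [h, dm_eq φ, one_bounds (F := F)] with ε h1 h2 h3
  rw [h2, le_div_iff₀ (by linarith [h3.1])]
  nlinarith [h3.2]

theorem dm_zero {φ : HeightOneSpectrum (𝓞 F) → ℝ} (h : Has φ 0) :
    Tendsto (dm φ) (𝓝[>] 0) (𝓝 0) := by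
  have h1 := (has_av h).div (has_av (has_one (F := F))) one_ne_zero
  rw [zero_div] at h1
  exact h1.congr' ((dm_eq φ).mono fun ε hε => hε.symm)

theorem has_of_dm {φ : HeightOneSpectrum (𝓞 F) → ℝ} (hb : ∃ B, ∀ v, |φ v| ≤ B)
    (h : Tendsto (dm φ) (𝓝[>] 0) (𝓝 0)) : Has φ 0 := by
  refine ⟨hb, ?_⟩
  have h1 := h.mul (has_av (has_one (F := F)))
  rw [zero_mul] at h1
  refine h1.congr' ?_
  filter_upwards [dm_eq φ, one_bounds (F := F)] with ε h2 h3
  rw [h2, div_mul_cancel₀]
  · rfl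
  · linarith [h3.1]

end

end Pool.Agent.Helper91K1.IM
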